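import Pool.Agent.LibHZ89.Defs

/-!
# Row BB: `C(j, k) C(L - j, k) ≤ 2 ^ (14 N e)` for `L ≤ 2^e N`, `k ≤ 6 N` (SHORT/MEDIUM, 25 min)
-/

namespace HZ5

open Finset HZ89

theorem bb_vand {L k j : ℕ} (hj : j ≤ L) : BB L k j ≤ L.choose (2 * k) := by
  unfold BB
  have h := Nat.add_choose_eq j (L - j) (2 * k)
  rw [Nat.add_sub_cancel' hj] at h
  rw [h]
  exact single_le_sum (f := fun ij : ℕ × ℕ => j.choose ij.1 * (L - j).choose ij.2)
    (fun _ _ => Nat.zero_le _) (mem_antidiagonal.2 (by ring : (k, k).1 + (k, k).2 = 2 * k))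

theorem BB_le' {L k j e N : ℕ} (hj : j ≤ L) (he : 1 ≤ e) (hL : L ≤ 2 ^ e * N) (hk : k ≤ 6 * N) :
    BB L k j ≤ 2 ^ (14 * N * e) := by
  refine (bb_vand hj).trans ?_
  set x : ℝ := 1 / 2 ^ e with hx
  have hx0 : 0 < x := by positivity
  -- one term of the binomial formula
  have h1 : (L.choose (2 * k) : ℝ) * x ^ (2 * k) ≤ (x + 1) ^ L := by
    rcases Nat.lt_or_ge L (2 * k) with h | h
    · rw [Nat.choose_eq_zero_of_lt h]
      push_cast
      rw [zero_mul]
      positivity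
    · rw [add_pow]
      have := single_le_sum (s := range (L + 1))
        (f := fun m => x ^ m * (1 : ℝ) ^ (L - m) * (L.choose m : ℝ))
        (fun m _ => by positivity) (mem_range.2 (by omega : 2 * k < L + 1))
      simp only [one_pow, mul_one] at this ⊢
      linarith
  have h2 : (x + 1) ^ L ≤ (4 : ℝ) ^ N := by
    have h3 : x + 1 ≤ Real.exp x := Real.add_one_le_exp x
    have h4 : (x : ℝ) * L ≤ N := by
      have : (L : ℝ) ≤ 2 ^ e * N := by exact_mod_cast hL
      rw [hx, one_div, inv_mul_le_iff₀ (by positivity)]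
      exact this
    calc (x + 1) ^ L ≤ (Real.exp x) ^ L := pow_le_pow_left₀ (by positivity) h3 L
      _ = Real.exp (x * L) := by rw [← Real.exp_nat_mul, mul_comm]
      _ ≤ Real.exp (N : ℝ) := Real.exp_le_exp.2 h4
      _ = (Real.exp 1) ^ N := by rw [← Real.exp_nat_mul, mul_one]
      _ ≤ (4 : ℝ) ^ N := by
          refine pow_le_pow_left₀ (Real.exp_pos _).le ?_ N
          have := Real.exp_one_lt_d9
          linarith
  have h5 : (L.choose (2 * k) : ℝ) ≤ 2 ^ (14 * N * e) := by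
    have h6 : (L.choose (2 * k) : ℝ) = (L.choose (2 * k) : ℝ) * x ^ (2 * k) * (2 ^ e) ^ (2 * k) := by
      rw [hx, mul_assoc, ← mul_pow, one_div, inv_mul_cancel₀ (by positivity), one_pow, mul_one]
    have h7 : ((2 : ℝ) ^ e) ^ (2 * k) ≤ 2 ^ (12 * N * e) := by
      rw [← pow_mul]
      refine pow_le_pow_right₀ (by norm_num) ?_
      calc e * (2 * k) ≤ e * (2 * (6 * N)) := by gcongr
        _ = 12 * N * e := by ring
    have h8 : (4 : ℝ) ^ N ≤ 2 ^ (2 * N * e) := by
      have : (4 : ℝ) = 2 ^ 2 := by norm_num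
      rw [this, ← pow_mul]
      refine pow_le_pow_right₀ (by norm_num) ?_
      nlinarith
    rw [h6]
    calc (L.choose (2 * k) : ℝ) * x ^ (2 * k) * (2 ^ e) ^ (2 * k)
        ≤ (4 : ℝ) ^ N * 2 ^ (12 * N * e) := by
          refine mul_le_mul (h1.trans h2) h7 (by positivity) (by positivity)
      _ ≤ 2 ^ (2 * N * e) * 2 ^ (12 * N * e) := by gcongr
      _ = 2 ^ (14 * N * e) := by rw [← pow_add]; congr 1; ring
  exact_mod_cast h5

end HZ5
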