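import Pool.Agent.LibHZ89.Core2

/-!
# Power saving: definitions
-/

namespace HZ5

open Finset HZ89

/-- the numbers `1 ≤ k ≤ X` whose class modulo `q` is `x` or `- x` for an `x ∈ I` -/
def KS (q X : ℕ) (I : Finset ℕ) : Finset ℕ := (Icc 1 X).filter fun k => k % q ∈ I ∨ q - k % q ∈ I

/-- their least common multiple -/
def lam (q X : ℕ) (I : Finset ℕ) : ℕ := (KS q X I).lcm id

end HZ5
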