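import Pool.Agent.LibHZ89.F3
import Pool.Agent.LibHZ5.Defs

/-!
# Row F: integral linear forms with a general denominator (SHORT/MEDIUM; adapt
Pool/Agent/LibHZ89/F3.lean, theorem `forms'`)

Plan: as `forms'` of LibHZ89/F3.lean with `Λ` instead of `lcmUpto (q n)`.  New: for `j ∈ P q n I` the
denominators `q m + j % q` (`m ≤ j/q`) and `q m + (q - j % q)` (`m < n - j/q`) of `ps q n j` are in
`KS q (q n) I`: they are between `1` and `q n`, their classes are `j % q ∈ I` and `q - j % q`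
(`0 < j % q < q/2`), with `q - (q - j % q) = j % q ∈ I`.
-/

namespace HZ5

open Finset HZ89

theorem ps_int2 {q n Λ : ℕ} {I : Finset ℕ} (hq : 1 ≤ q) (hI : ∀ x ∈ I, 1 ≤ x ∧ 2 * x < q)
    (hΛ : ∀ k ∈ KS q (q * n) I, k ∣ Λ) {j : ℕ}
    (hj : j ∈ P q n I) : ∃ m : ℤ, (Λ : ℝ) ^ 3 * ps q n j = m := by
  obtain ⟨hj1, hjL, hjI, hj2, hjx⟩ := mem_P hI hj
  have hin : j / q < n := Nat.div_lt_of_lt_mul hjL
  have hdm : q * (j / q) + j % q = j := Nat.div_add_mod j q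
  have hxq : j % q < q := Nat.mod_lt _ (by omega)
  have h1 : ∃ k : ℤ, ∑ m ∈ range (j / q + 1), (Λ : ℝ) ^ 3 *
      (1 / ((q : ℝ) * m + (j % q : ℕ)) ^ 3) = (k : ℝ) := by
    apply f3_sum
    intro m hm
    have hm' : m ≤ j / q := Nat.lt_succ_iff.1 (mem_range.1 hm)
    have h2 : q * m ≤ q * (j / q) := Nat.mul_le_mul_left q hm'
    have hmem : q * m + j % q ∈ KS q (q * n) I := by
      refine mem_filter.2 ⟨mem_Icc.2 ⟨le_trans hjx (Nat.le_add_left _ _), by omega⟩, Or.inl ?_⟩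
      rw [Nat.mul_add_mod, Nat.mod_mod]
      exact hjI
    obtain ⟨k, hk⟩ := f3_frac (Λ := Λ) (d := q * m + j % q)
      (le_trans hjx (Nat.le_add_left _ _)) (hΛ _ hmem)
    refine ⟨k, ?_⟩
    rw [← hk]
    push_cast
    rfl
  have h3 : ∃ k : ℤ, ∑ m ∈ range (n - j / q), (Λ : ℝ) ^ 3 *
      (1 / ((q : ℝ) * m + (q - (j % q : ℕ))) ^ 3) = (k : ℝ) := by
    apply f3_sum
    intro m hm
    have hm' : m < n - j / q := mem_range.1 hm
    have h2 : q * (m + 1) ≤ q * n :=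
      Nat.mul_le_mul_left q (Nat.succ_le_of_lt (lt_of_lt_of_le hm' (Nat.sub_le _ _)))
    have h4 : q * (m + 1) = q * m + q := by ring
    have h5 : 1 ≤ q * m + (q - j % q) := le_trans (by omega : 1 ≤ q - j % q) (Nat.le_add_left _ _)
    have hmem : q * m + (q - j % q) ∈ KS q (q * n) I := by
      refine mem_filter.2 ⟨mem_Icc.2 ⟨h5, by have := Nat.sub_le q (j % q); omega⟩, Or.inr ?_⟩
      rw [Nat.mul_add_mod, Nat.mod_eq_of_lt (by omega : q - j % q < q), Nat.sub_sub_self hxq.le]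
      exact hjI
    obtain ⟨k, hk⟩ := f3_frac (Λ := Λ) (d := q * m + (q - j % q)) h5 (hΛ _ hmem)
    refine ⟨k, ?_⟩
    rw [← hk]
    push_cast [Nat.cast_sub hxq.le]
    rfl
  obtain ⟨a, ha⟩ := h1
  obtain ⟨b, hb⟩ := h3
  refine ⟨a + b, ?_⟩
  rw [Int.cast_add, ← ha, ← hb, ps, mul_add, Finset.mul_sum, Finset.mul_sum]

theorem forms2 {q n Λ : ℕ} {I : Finset ℕ} (hq : 1 ≤ q) (hn : 1 ≤ n)
    (hI : ∀ x ∈ I, 1 ≤ x ∧ 2 * x < q) (hΛ : ∀ k ∈ KS q (q * n) I, k ∣ Λ) {D : ℕ}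
    (ξ : Fin D → ℝ) (b : ℕ → Fin D → ℤ)
    (e : Fin D → ℤ) {D₁ B : ℕ} (hb : ∀ x ∈ I, (D₁ : ℝ) * S q x = ∑ i, (b x i : ℝ) * ξ i)
    (he : (D₁ : ℝ) = ∑ i, (e i : ℝ) * ξ i) (hB : ∀ x ∈ I, ∀ i, |b x i| ≤ B)
    (heB : ∀ i, |e i| ≤ B) (c : ℕ → ℤ) :
    ∃ z : Fin D → ℤ,
      (∀ i, (z i : ℝ) = (Λ : ℝ) ^ 3 *
        ∑ j ∈ P q n I, (c j : ℝ) * ((b (j % q) i : ℝ) - (e i : ℝ) * ps q n j)) ∧
      (D₁ : ℝ) * (Λ : ℝ) ^ 3 *
        (1 / (q : ℝ) ^ 3 * ell n (P q n I) (om q n) fun j => (c j : ℝ)) = ∑ i, (z i : ℝ) * ξ i ∧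
      ∀ i, |(z i : ℝ)| ≤ (Λ : ℝ) ^ 3 * B * (n + 2) * ∑ j ∈ P q n I, |(c j : ℝ)| := by
  have hps : ∀ j ∈ P q n I, ∃ m : ℤ, (Λ : ℝ) ^ 3 * ps q n j = m :=
    fun j hj => ps_int2 hq hI hΛ hj
  choose! M hM using hps
  have hz : ∀ i, ((∑ j ∈ P q n I, c j * ((Λ : ℤ) ^ 3 * b (j % q) i -
      e i * M j) : ℤ) : ℝ) = (Λ : ℝ) ^ 3 *
        ∑ j ∈ P q n I, (c j : ℝ) * ((b (j % q) i : ℝ) - (e i : ℝ) * ps q n j) := by
    intro i
    rw [Int.cast_sum, Finset.mul_sum]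
    refine Finset.sum_congr rfl fun j hj => ?_
    push_cast
    rw [← hM j hj]
    ring
  refine ⟨fun i => ∑ j ∈ P q n I, c j * ((Λ : ℤ) ^ 3 * b (j % q) i -
    e i * M j), hz, ?_, ?_⟩
  · rw [ell_eq hq hn hI fun j => (c j : ℝ)]
    have h1 : ∀ j ∈ P q n I, (D₁ : ℝ) * (S q (j % q) -
        ∑ m ∈ range (j / q + 1), 1 / ((q : ℝ) * m + (j % q : ℕ)) ^ 3 -
        ∑ m ∈ range (n - j / q), 1 / ((q : ℝ) * m + (q - (j % q : ℕ))) ^ 3) =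
        ∑ i, ((b (j % q) i : ℝ) - (e i : ℝ) * ps q n j) * ξ i := by
      intro j hj
      obtain ⟨hj1, hjL, hjI, hj2, hjx⟩ := mem_P hI hj
      have h2 : ∑ i, ((b (j % q) i : ℝ) - (e i : ℝ) * ps q n j) * ξ i =
          ∑ i, (b (j % q) i : ℝ) * ξ i - (∑ i, (e i : ℝ) * ξ i) * ps q n j := by
        rw [Finset.sum_mul, ← Finset.sum_sub_distrib]
        exact Finset.sum_congr rfl fun i _ => by ring
      rw [h2, ← hb _ hjI, ← he]
      unfold ps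
      ring
    calc (D₁ : ℝ) * (Λ : ℝ) ^ 3 * ∑ j ∈ P q n I, (c j : ℝ) * (S q (j % q) -
          ∑ m ∈ range (j / q + 1), 1 / ((q : ℝ) * m + (j % q : ℕ)) ^ 3 -
          ∑ m ∈ range (n - j / q), 1 / ((q : ℝ) * m + (q - (j % q : ℕ))) ^ 3)
        = ∑ j ∈ P q n I, (Λ : ℝ) ^ 3 * ((c j : ℝ) * ((D₁ : ℝ) * (S q (j % q) -
          ∑ m ∈ range (j / q + 1), 1 / ((q : ℝ) * m + (j % q : ℕ)) ^ 3 -
          ∑ m ∈ range (n - j / q), 1 / ((q : ℝ) * m + (q - (j % q : ℕ))) ^ 3))) := by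
          rw [Finset.mul_sum]
          exact Finset.sum_congr rfl fun j _ => by ring
      _ = ∑ j ∈ P q n I, ∑ i, (Λ : ℝ) ^ 3 * ((c j : ℝ) *
            ((b (j % q) i : ℝ) - (e i : ℝ) * ps q n j)) * ξ i := by
          refine Finset.sum_congr rfl fun j hj => ?_
          rw [h1 j hj, Finset.mul_sum, Finset.mul_sum]
          exact Finset.sum_congr rfl fun i _ => by ring
      _ = ∑ i, ∑ j ∈ P q n I, (Λ : ℝ) ^ 3 * ((c j : ℝ) *
            ((b (j % q) i : ℝ) - (e i : ℝ) * ps q n j)) * ξ i := Finset.sum_comm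
      _ = _ := by
          refine Finset.sum_congr rfl fun i _ => ?_
          rw [hz i, Finset.mul_sum, Finset.sum_mul]
  · intro i
    rw [hz i, abs_mul, abs_of_nonneg (by positivity : (0 : ℝ) ≤ (Λ : ℝ) ^ 3)]
    have h1 : |∑ j ∈ P q n I, (c j : ℝ) * ((b (j % q) i : ℝ) - (e i : ℝ) * ps q n j)| ≤
        (B : ℝ) * (n + 2) * ∑ j ∈ P q n I, |(c j : ℝ)| := by
      refine (Finset.abs_sum_le_sum_abs _ _).trans ?_
      rw [Finset.mul_sum]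
      refine Finset.sum_le_sum fun j hj => ?_
      obtain ⟨hj1, hjL, hjI, hj2, hjx⟩ := mem_P hI hj
      obtain ⟨hp0, hp1⟩ := ps_le hq hI hj
      have h2 : |(b (j % q) i : ℝ)| ≤ B := by exact_mod_cast hB _ hjI i
      have h3 : |(e i : ℝ)| ≤ B := by exact_mod_cast heB i
      have hB0 : (0 : ℝ) ≤ B := Nat.cast_nonneg B
      have h4 : |(b (j % q) i : ℝ) - (e i : ℝ) * ps q n j| ≤ (B : ℝ) * (n + 2) := by
        refine (abs_sub _ _).trans ?_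
        rw [abs_mul, abs_of_nonneg hp0]
        have h5 : |(e i : ℝ)| * ps q n j ≤ B * (n + 1) := mul_le_mul h3 hp1 hp0 hB0
        nlinarith
      rw [abs_mul, mul_comm]
      exact mul_le_mul_of_nonneg_right h4 (abs_nonneg _)
    calc (Λ : ℝ) ^ 3 *
          |∑ j ∈ P q n I, (c j : ℝ) * ((b (j % q) i : ℝ) - (e i : ℝ) * ps q n j)|
        ≤ (Λ : ℝ) ^ 3 * ((B : ℝ) * (n + 2) * ∑ j ∈ P q n I, |(c j : ℝ)|) :=
          mul_le_mul_of_nonneg_left h1 (by positivity)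
      _ = _ := by ring

end HZ5
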