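import Pool.Agent.LibLargeSieve.GBound

/-!
# Row L1: Chebyshev's upper bound in arithmetic progressions, `q` fixed, `Y → ∞` (MEDIUM, 40 min)
-/

namespace HZ5

open Finset

theorem theta_ap : ∃ C : ℕ, ∀ q : ℕ, 1 ≤ q → ∃ Y₀ : ℕ, ∀ Y : ℕ, Y₀ ≤ Y → ∀ b : ℕ,
    ∑ p ∈ (Icc 1 Y).filter (fun p => p.Prime ∧ p % q = b), Real.log p ≤ C * Y / q.totient := by
  classical
  refine ⟨109, fun q hq => ?_⟩
  refine ⟨16 ^ 4 * q ^ 4, fun Y hY b => ?_⟩
  have hq0 : (0 : ℝ) < q := by exact_mod_cast hq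
  have hφ : 0 < q.totient := Nat.totient_pos.2 (by omega)
  have hφ0 : (0 : ℝ) < q.totient := by exact_mod_cast hφ
  have hqY : q ≤ Y := by
    refine le_trans ?_ hY
    calc q ≤ q ^ 4 := Nat.le_self_pow (by norm_num) q
      _ ≤ 16 ^ 4 * q ^ 4 := Nat.le_mul_of_pos_left _ (by norm_num)
  have hY0 : 0 < Y := by omega
  have hY0' : (0 : ℝ) < Y := by exact_mod_cast hY0
  set M : ℕ := Nat.sqrt (Y / q) with hM
  set X : ℕ := Y / q + 1 with hX
  have hMX : M ^ 2 < X := by
    rw [hX, hM]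
    exact Nat.lt_succ_of_le (Nat.sqrt_le' (Y / q))
  -- `M ≥ sqrt (Y/q) / 2`
  have hM4 : Y ≤ 4 * q * M ^ 2 := by
    have h1 : Y / q < (M + 1) ^ 2 := by
      have := Nat.lt_succ_sqrt' (Y / q)
      exact this
    have h2 : Y < q * (Y / q + 1) := Nat.lt_mul_div_succ Y (by omega)
    have h3 : 1 ≤ M := by
      rw [hM, Nat.one_le_iff_ne_zero]
      intro h0
      rw [Nat.sqrt_eq_zero] at h0
      have := Nat.div_pos hqY (by omega)
      omega
    have h4 : Y / q + 1 ≤ (M + 1) ^ 2 := h1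
    have h5 : (M + 1) ^ 2 ≤ 4 * M ^ 2 := by nlinarith
    calc Y ≤ q * (Y / q + 1) := h2.le
      _ ≤ q * (4 * M ^ 2) := Nat.mul_le_mul_left _ (h4.trans h5)
      _ = 4 * q * M ^ 2 := by ring
  -- `4 q ≤ M`
  have hqM : 4 * q ≤ M := by
    rw [hM, Nat.le_sqrt, Nat.le_div_iff_mul_le (by omega)]
    refine le_trans ?_ hY
    calc 4 * q * (4 * q) * q = 16 * q ^ 3 := by ring
      _ ≤ 16 ^ 4 * q ^ 4 := by
          have : q ^ 3 ≤ q ^ 4 := Nat.pow_le_pow_right hq (by norm_num)
          exact Nat.mul_le_mul (by norm_num) this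
  have hM3 : Y ≤ M ^ 3 := by
    calc Y ≤ 4 * q * M ^ 2 := hM4
      _ ≤ M * M ^ 2 := Nat.mul_le_mul_right _ hqM
      _ = M ^ 3 := by ring
  have hM0 : 0 < M := by omega
  have hM0' : (0 : ℝ) < M := by exact_mod_cast hM0
  have hlogY : Real.log Y ≤ 3 * Real.log M := by
    have h1 : (Y : ℝ) ≤ (M : ℝ) ^ 3 := by exact_mod_cast hM3
    have h2 := Real.log_le_log hY0' h1
    rw [Real.log_pow] at h2
    push_cast at h2
    exact h2
  set T := (Icc 1 Y).filter (fun p => p.Prime ∧ p % q = b) with hT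
  set P := T.filter (fun p => M < p) with hP
  have hsplit : ∑ p ∈ T, Real.log p = ∑ p ∈ P, Real.log p +
      ∑ p ∈ T.filter (fun p => ¬ M < p), Real.log p := (sum_filter_add_sum_filter_not _ _ _).symm
  have hBT := LSieve.brun_titchmarsh P (fun p hp => (mem_filter.1 (mem_filter.1 hp).1).2.1) M X q b 0
    hMX (fun p hp => (mem_filter.1 hp).2) (by omega)
    (fun p hp => by
      have := (mem_filter.1 (mem_filter.1 hp).1).2.2
      rw [← this]
      exact (Nat.mod_modEq p q).symm)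
    (fun p hp => by
      refine ⟨Nat.zero_le _, ?_⟩
      have h1 := (mem_Icc.1 (mem_filter.1 (mem_filter.1 hp).1).1).2
      have h2 : Y < q * (Y / q + 1) := Nat.lt_mul_div_succ Y (by omega)
      rw [zero_add]
      exact lt_of_le_of_lt h1 h2)
  have hqX : (q : ℝ) * X ≤ 2 * Y := by
    have : q * X ≤ 2 * Y := by
      rw [hX, mul_add, mul_one]
      have := Nat.mul_div_le Y q
      omega
    exact_mod_cast this
  have h1 : ∑ p ∈ P, Real.log p ≤ 108 * Y / q.totient := by
    have h2 : ∑ p ∈ P, Real.log p ≤ ∑ _p ∈ P, Real.log Y := by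
      refine sum_le_sum fun p hp => ?_
      have h3 := mem_Icc.1 (mem_filter.1 (mem_filter.1 hp).1).1
      exact Real.log_le_log (by exact_mod_cast h3.1) (by exact_mod_cast h3.2)
    rw [sum_const, nsmul_eq_mul] at h2
    calc ∑ p ∈ P, Real.log p ≤ (P.card : ℝ) * Real.log Y := h2
      _ ≤ (P.card : ℝ) * (3 * Real.log M) := by gcongr
      _ = 3 * ((P.card : ℝ) * Real.log M) := by ring
      _ ≤ 3 * (18 * (q / q.totient) * X) := by gcongr
      _ = 54 * (q * X) / q.totient := by ring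
      _ ≤ 54 * (2 * Y) / q.totient := by gcongr
      _ = 108 * Y / q.totient := by ring
  have h4 : ∑ p ∈ T.filter (fun p => ¬ M < p), Real.log p ≤ Y / q.totient := by
    have h5 : ∑ p ∈ T.filter (fun p => ¬ M < p), Real.log p ≤ ∑ _p ∈ Icc 1 M, Real.log M := by
      have h6 : T.filter (fun p => ¬ M < p) ⊆ Icc 1 M := by
        intro p hp
        have h7 := mem_Icc.1 (mem_filter.1 (mem_filter.1 hp).1).1
        have h8 := (mem_filter.1 hp).2
        exact mem_Icc.2 ⟨h7.1, by omega⟩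
      refine (sum_le_sum_of_subset_of_nonneg h6
        (fun p _ _ => Real.log_natCast_nonneg p)).trans ?_
      refine sum_le_sum fun p hp => ?_
      have h7 := mem_Icc.1 hp
      exact Real.log_le_log (by exact_mod_cast h7.1) (by exact_mod_cast h7.2)
    rw [sum_const, nsmul_eq_mul, Nat.card_Icc, Nat.add_sub_cancel] at h5
    refine h5.trans ?_
    have h9 : Real.log M ≤ M := (Real.log_le_sub_one_of_pos hM0').trans (by linarith)
    have h10 : (M : ℝ) * M ≤ Y / q := by
      rw [le_div_iff₀ hq0]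
      have h11 : M * M * q ≤ Y := by
        calc M * M * q ≤ (Y / q) * q := Nat.mul_le_mul_right _ (Nat.sqrt_le _)
          _ ≤ Y := Nat.div_mul_le_self _ _
      exact_mod_cast h11
    have h12 : (q.totient : ℝ) ≤ q := by exact_mod_cast Nat.totient_le q
    calc (M : ℝ) * Real.log M ≤ M * M := by gcongr
      _ ≤ Y / q := h10
      _ ≤ Y / q.totient := by gcongr
  rw [hsplit]
  calc _ ≤ 108 * (Y : ℝ) / q.totient + Y / q.totient := add_le_add h1 h4
    _ = ((109 : ℕ) : ℝ) * Y / q.totient := by push_cast; ring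

end HZ5
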