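import Pool.Agent.LibHZ5.Defs
import Pool.Agent.LibHZ5.L1

/-!
# Row L3: the primes which divide a number `≤ q k` in the classes `± x` (STRONG, 60 min)
-/

namespace HZ5

open Finset HZ89

/-- the class of `y / l` modulo `q` -/
def bcl (q l y : ℕ) : ℕ := ((y : ZMod q) * (l : ZMod q)⁻¹).val

theorem l3_bcl {q l y p : ℕ} (hl : l.Coprime q) (h : (p * l) % q = y) : p % q = bcl q l y := by
  have h1 : (p : ZMod q) * l = y := by
    rw [← h]
    simp
  have h2 : (p : ZMod q) = (y : ZMod q) * (l : ZMod q)⁻¹ := by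
    rw [← h1, mul_assoc, ZMod.coe_mul_inv_eq_one l hl, mul_one]
  rw [bcl, ← h2, ZMod.val_natCast]

theorem l3_small (n : ℕ) : ∑ p ∈ (Icc 1 n).filter Nat.Prime, Real.log p ≤ 2 * n := by
  have h1 := Chebyshev.theta_le_log4_mul_x (x := (n : ℝ)) (Nat.cast_nonneg n)
  have h2 : Chebyshev.theta (n : ℝ) = ∑ p ∈ (Icc 1 n).filter Nat.Prime, Real.log p := by
    rw [Chebyshev.theta_eq_sum_Icc]
    rw [Nat.floor_natCast]
    symm
    refine sum_subset ?_ ?_
    · intro p hp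
      rw [mem_filter, mem_Icc] at hp ⊢
      exact ⟨⟨by omega, hp.1.2⟩, hp.2⟩
    · intro p hp hp2
      rw [mem_filter, mem_Icc] at hp
      exact absurd (mem_filter.2 ⟨mem_Icc.2 ⟨hp.2.one_le, hp.1.2⟩, hp.2⟩) hp2
  rw [← h2]
  refine h1.trans ?_
  have h3 : Real.log 4 ≤ 2 := by
    have : (4 : ℝ) = 2 ^ 2 := by norm_num
    rw [this, Real.log_pow]
    have := Real.log_two_lt_d9
    push_cast
    linarith
  exact mul_le_mul_of_nonneg_right h3 (Nat.cast_nonneg n)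

theorem l3_union (A S : Finset ℕ) (f : ℕ → ℝ) (hf : ∀ p, 0 ≤ f p) :
    ∑ p ∈ A ∪ S, f p ≤ ∑ p ∈ A, f p + ∑ p ∈ S, f p := by
  rw [← sum_union_inter]
  have : 0 ≤ ∑ p ∈ A ∩ S, f p := sum_nonneg fun p _ => hf p
  linarith

theorem l3_biUnion (L : Finset ℕ) (B : ℕ → Finset ℕ) (f : ℕ → ℝ) (hf : ∀ p, 0 ≤ f p) :
    ∑ p ∈ L.biUnion B, f p ≤ ∑ l ∈ L, ∑ p ∈ B l, f p := by
  classical
  induction L using Finset.induction_on with
  | empty => simp
  | insert a t ha ih =>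
    rw [biUnion_insert, sum_insert ha]
    exact (l3_union _ _ f hf).trans (by linarith)

theorem l3_cover {T A L J : Finset ℕ} {B : ℕ → ℕ → Finset ℕ} (f : ℕ → ℝ) (hf : ∀ p, 0 ≤ f p)
    (h : ∀ p ∈ T, p ∈ A ∨ ∃ l ∈ L, ∃ y ∈ J, p ∈ B l y) :
    ∑ p ∈ T, f p ≤ ∑ p ∈ A, f p + ∑ l ∈ L, ∑ y ∈ J, ∑ p ∈ B l y, f p := by
  classical
  have h1 : T ⊆ A ∪ L.biUnion fun l => J.biUnion fun y => B l y := by
    intro p hp
    rw [mem_union]
    rcases h p hp with h | ⟨l, hl, y, hy, h⟩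
    · exact Or.inl h
    · exact Or.inr (mem_biUnion.2 ⟨l, hl, mem_biUnion.2 ⟨y, hy, h⟩⟩)
  refine (sum_le_sum_of_subset_of_nonneg h1 fun p _ _ => hf p).trans ?_
  refine (l3_union _ _ f hf).trans ?_
  have h2 := l3_biUnion L (fun l => J.biUnion fun y => B l y) f hf
  have h3 : ∑ l ∈ L, ∑ p ∈ J.biUnion (fun y => B l y), f p ≤
      ∑ l ∈ L, ∑ y ∈ J, ∑ p ∈ B l y, f p :=
    sum_le_sum fun l _ => l3_biUnion J (fun y => B l y) f hf
  linarith

theorem l3_harm {e : ℕ} (he : 1 ≤ e) :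
    ∑ l ∈ Icc (1 : ℕ) (2 ^ e - 1), (1 : ℝ) / (l : ℝ) ≤ 2 * e := by
  have h1 : ∑ l ∈ Icc (1 : ℕ) (2 ^ e - 1), (1 : ℝ) / (l : ℝ) ≤ ((harmonic (2 ^ e) : ℚ) : ℝ) := by
    rw [harmonic_eq_sum_Icc]
    push_cast
    have : ∀ l : ℕ, (1 : ℝ) / l = (l : ℝ)⁻¹ := fun l => one_div _
    simp only [this]
    refine sum_le_sum_of_subset_of_nonneg ?_ (fun l _ _ => by positivity)
    intro l hl
    rw [mem_Icc] at hl ⊢
    omega
  have h2 := harmonic_le_one_add_log (2 ^ e)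
  have h3 : Real.log ((2 ^ e : ℕ) : ℝ) ≤ e := by
    push_cast
    rw [Real.log_pow]
    have := Real.log_two_lt_d9
    have he0 : (0 : ℝ) ≤ e := Nat.cast_nonneg e
    nlinarith
  have he1 : (1 : ℝ) ≤ e := by exact_mod_cast he
  linarith

theorem sum_primes_le : ∃ C : ℕ, ∀ (q u e s : ℕ) (I : Finset ℕ), 2 ≤ q → 1 ≤ u → 1 ≤ e → 1 ≤ s →
    q ≤ 2 ^ e * u → e * q ≤ s * q.totient → I.card ≤ 8 * u →
    (∀ x ∈ I, 1 ≤ x ∧ 2 * x < q ∧ x.Coprime q) → ∃ k₀ : ℕ, ∀ k : ℕ, k₀ ≤ k →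
      ∑ p ∈ (Icc 1 (q * k)).filter (fun p => p.Prime ∧ ∃ k' ∈ KS q (q * k) I, p ∣ k'), Real.log p ≤
        C * u * s * k := by
  classical
  obtain ⟨C₀, hC₀⟩ := theta_ap
  refine ⟨32 * C₀ + 2, ?_⟩
  intro q u e s I hq hu he hs hqe hes hI hIx
  obtain ⟨Y₀, hY₀⟩ := hC₀ q (by omega)
  refine ⟨2 ^ e * Y₀, fun k hk => ?_⟩
  set X : ℕ := q * k with hX
  set J : Finset ℕ := (range q).filter fun y => y ∈ I ∨ q - y ∈ I with hJ
  have hJc : J.card ≤ 16 * u := by
    have h1 : J ⊆ I ∪ I.image (fun x => q - x) := by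
      intro y hy
      rw [hJ, mem_filter, mem_range] at hy
      rw [mem_union, mem_image]
      rcases hy.2 with h | h
      · exact Or.inl h
      · exact Or.inr ⟨q - y, h, by omega⟩
    have h2 := card_le_card h1
    have h3 := card_union_le I (I.image (fun x => q - x))
    have h4 : (I.image (fun x => q - x)).card ≤ I.card := card_image_le
    omega
  have hφ : 0 < q.totient := Nat.totient_pos.2 (by omega)
  have hφ0 : (0 : ℝ) < q.totient := by exact_mod_cast hφ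
  -- the covering
  have hcov : ∀ p ∈ (Icc 1 X).filter (fun p => p.Prime ∧ ∃ k' ∈ KS q X I, p ∣ k'),
      p ∈ (Icc 1 (u * k)).filter Nat.Prime ∨ ∃ l ∈ Icc 1 (2 ^ e - 1), ∃ y ∈ J,
        p ∈ (Icc 1 (X / l)).filter (fun p => p.Prime ∧ p % q = bcl q l y) := by
    intro p hp
    obtain ⟨hpX, hpp, k', hk', hpk⟩ := mem_filter.1 hp
    obtain ⟨l, rfl⟩ := hpk
    obtain ⟨hk1, hk2⟩ := mem_filter.1 hk'
    rw [mem_Icc] at hk1
    have hl : 1 ≤ l := by
      rcases Nat.eq_zero_or_pos l with rfl | h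
      · simp at hk1
      · exact h
    by_cases hlK : 2 ^ e ≤ l
    · left
      refine mem_filter.2 ⟨mem_Icc.2 ⟨hpp.one_le, ?_⟩, hpp⟩
      have h1 : p * 2 ^ e ≤ u * k * 2 ^ e := by
        calc p * 2 ^ e ≤ p * l := Nat.mul_le_mul_left _ hlK
          _ ≤ q * k := hk1.2
          _ ≤ 2 ^ e * u * k := Nat.mul_le_mul_right _ hqe
          _ = u * k * 2 ^ e := by ring
      exact Nat.le_of_mul_le_mul_right h1 (by positivity)
    · right
      rw [not_le] at hlK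
      have hyq : p * l % q < q := Nat.mod_lt _ (by omega)
      have hy : (p * l % q).Coprime q := by
        rcases hk2 with h | h
        · exact (hIx _ h).2.2
        · have h1 := (hIx _ h).2.2
          have h2 : Nat.Coprime (q - (q - p * l % q)) q := by
            rw [Nat.coprime_self_sub_left (by omega)]
            exact h1
          rwa [Nat.sub_sub_self hyq.le] at h2
      have hpl : (p * l).Coprime q := by
        have h3 : Nat.gcd (p * l) q = Nat.gcd (p * l % q) q := by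
          rw [Nat.gcd_comm, Nat.gcd_rec]
        rw [Nat.Coprime, h3]
        exact hy
      have hlq : l.Coprime q := Nat.Coprime.coprime_mul_left hpl
      refine ⟨l, mem_Icc.2 ⟨hl, by omega⟩, p * l % q, mem_filter.2 ⟨mem_range.2 hyq, hk2⟩, ?_⟩
      refine mem_filter.2 ⟨mem_Icc.2 ⟨hpp.one_le, ?_⟩, hpp, l3_bcl hlq rfl⟩
      rw [Nat.le_div_iff_mul_le (by omega)]
      exact hk1.2
  -- the sum is at most the sum over the pieces
  have hsum : ∑ p ∈ (Icc 1 X).filter (fun p => p.Prime ∧ ∃ k' ∈ KS q X I, p ∣ k'), Real.log p ≤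
      ∑ p ∈ (Icc 1 (u * k)).filter Nat.Prime, Real.log p +
      ∑ l ∈ Icc 1 (2 ^ e - 1), ∑ y ∈ J,
        ∑ p ∈ (Icc 1 (X / l)).filter (fun p => p.Prime ∧ p % q = bcl q l y), Real.log p :=
    l3_cover (fun p => Real.log p) (fun p => Real.log_natCast_nonneg p) hcov
  have hA := l3_small (u * k)
  have hB : ∀ l ∈ Icc 1 (2 ^ e - 1), ∑ y ∈ J,
      ∑ p ∈ (Icc 1 (X / l)).filter (fun p => p.Prime ∧ p % q = bcl q l y), Real.log p ≤
      (16 * u * C₀ * X / q.totient) * (1 / l) := by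
    intro l hl
    rw [mem_Icc] at hl
    have hl0 : (0 : ℝ) < l := by exact_mod_cast hl.1
    have hXl : Y₀ ≤ X / l := by
      rw [Nat.le_div_iff_mul_le (by omega)]
      calc Y₀ * l ≤ Y₀ * 2 ^ e := Nat.mul_le_mul_left _ (by omega)
        _ = 2 ^ e * Y₀ := mul_comm _ _
        _ ≤ k := hk
        _ ≤ q * k := Nat.le_mul_of_pos_left _ (by omega)
    have h1 : ∀ y ∈ J, ∑ p ∈ (Icc 1 (X / l)).filter (fun p => p.Prime ∧ p % q = bcl q l y),
        Real.log p ≤ C₀ * X / q.totient * (1 / l) := by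
      intro y _
      refine (hY₀ (X / l) hXl (bcl q l y)).trans ?_
      have h2 : ((X / l : ℕ) : ℝ) ≤ X / l := Nat.cast_div_le
      calc (C₀ : ℝ) * ((X / l : ℕ) : ℝ) / q.totient ≤ C₀ * ((X : ℝ) / l) / q.totient := by gcongr
        _ = C₀ * X / q.totient * (1 / l) := by ring
    refine (sum_le_sum h1).trans ?_
    rw [sum_const, nsmul_eq_mul]
    have h3 : (J.card : ℝ) ≤ 16 * u := by exact_mod_cast hJc
    calc (J.card : ℝ) * (C₀ * X / q.totient * (1 / l)) ≤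
        (16 * u) * (C₀ * X / q.totient * (1 / l)) := by gcongr
      _ = _ := by ring
  have hB2 : ∑ l ∈ Icc 1 (2 ^ e - 1), ∑ y ∈ J,
      ∑ p ∈ (Icc 1 (X / l)).filter (fun p => p.Prime ∧ p % q = bcl q l y), Real.log p ≤
      32 * C₀ * u * s * k := by
    refine (sum_le_sum hB).trans ?_
    rw [← mul_sum]
    have h1 := l3_harm he
    have h2 : (e : ℝ) * q ≤ s * q.totient := by exact_mod_cast hes
    calc 16 * (u : ℝ) * C₀ * X / q.totient * ∑ l ∈ Icc (1 : ℕ) (2 ^ e - 1), 1 / (l : ℝ)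
        ≤ 16 * (u : ℝ) * C₀ * X / q.totient * (2 * e) := by gcongr
      _ = 32 * C₀ * u * k * ((e * q) / q.totient) := by
          rw [hX]
          push_cast
          ring
      _ ≤ 32 * C₀ * u * k * ((s * q.totient) / q.totient) := by gcongr
      _ = 32 * C₀ * u * s * k := by
          rw [mul_div_assoc, div_self hφ0.ne']
          ring
  have hs1 : (1 : ℝ) ≤ s := by exact_mod_cast hs
  have h5 : (2 : ℝ) * ((u * k : ℕ) : ℝ) ≤ 2 * u * s * k := by
    push_cast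
    have : (0 : ℝ) ≤ u * k := by positivity
    nlinarith
  push_cast
  calc _ ≤ _ := hsum
    _ ≤ 2 * ((u * k : ℕ) : ℝ) + 32 * C₀ * u * s * k := add_le_add hA hB2
    _ ≤ 2 * u * s * k + 32 * C₀ * u * s * k := by linarith
    _ = _ := by ring

end HZ5
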