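import Pool.Agent.LibHZ5.L2
import Pool.Agent.LibHZ5.L3

/-!
# Row L4: the least common multiple (SHORT, 25 min)
-/

namespace HZ5

open Finset HZ89

/-- `sqrt (q k) log (q k) ≤ k` for large `k` -/
theorem l4_small (q : ℕ) (hq : 1 ≤ q) : ∃ k₁ : ℕ, ∀ k : ℕ, k₁ ≤ k →
    (Nat.sqrt (q * k) : ℝ) * Real.log (q * k : ℕ) ≤ k := by
  have hq0 : (0 : ℝ) < q := by exact_mod_cast hq
  -- `log x ≤ x^(1/4) * 4`
  refine ⟨256 * q ^ 3, fun k hk => ?_⟩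
  have hk0 : 0 < k := lt_of_lt_of_le (by positivity) hk
  have hk0' : (0 : ℝ) < k := by exact_mod_cast hk0
  set X : ℝ := ((q * k : ℕ) : ℝ) with hX
  have hX0 : 0 < X := by
    rw [hX]; push_cast; positivity
  have h1 : (Nat.sqrt (q * k) : ℝ) ≤ Real.sqrt X := Real.nat_sqrt_le_real_sqrt
  have h2 : Real.log X ≤ 4 * X ^ (1 / 4 : ℝ) := by
    have h := Real.log_le_rpow_div hX0.le (by norm_num : (0 : ℝ) < 1 / 4)
    calc Real.log X ≤ X ^ (1 / 4 : ℝ) / (1 / 4) := h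
      _ = 4 * X ^ (1 / 4 : ℝ) := by ring
  have h3 : (0 : ℝ) ≤ Real.log X := by
    refine Real.log_nonneg ?_
    rw [hX]
    exact_mod_cast Nat.mul_pos (by omega : 0 < q) hk0
  have h4 : Real.sqrt X * (4 * X ^ (1 / 4 : ℝ)) ≤ k := by
    have e1 : Real.sqrt X * (4 * X ^ (1 / 4 : ℝ)) = 4 * X ^ (3 / 4 : ℝ) := by
      rw [Real.sqrt_eq_rpow]
      have : X ^ (3 / 4 : ℝ) = X ^ (1 / 2 : ℝ) * X ^ (1 / 4 : ℝ) := by
        rw [← Real.rpow_add hX0]; norm_num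
      rw [this]; ring
    rw [e1]
    have e2 : (4 * X ^ (3 / 4 : ℝ)) ^ 4 ≤ (k : ℝ) ^ 4 := by
      rw [mul_pow, ← Real.rpow_natCast (X ^ (3 / 4 : ℝ)), ← Real.rpow_mul hX0.le]
      have : (3 / 4 : ℝ) * ((4 : ℕ) : ℝ) = ((3 : ℕ) : ℝ) := by norm_num
      rw [this, Real.rpow_natCast, hX]
      have h5 : ((256 * q ^ 3 : ℕ) : ℝ) ≤ k := by exact_mod_cast hk
      push_cast at h5 ⊢
      calc (4 : ℝ) ^ 4 * ((q : ℝ) * (k : ℝ)) ^ 3 = (256 * (q : ℝ) ^ 3) * (k : ℝ) ^ 3 := by ring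
        _ ≤ (k : ℝ) * (k : ℝ) ^ 3 := by gcongr
        _ = (k : ℝ) ^ 4 := by ring
    exact le_of_pow_le_pow_left₀ (by norm_num) hk0'.le e2
  calc (Nat.sqrt (q * k) : ℝ) * Real.log X ≤ Real.sqrt X * (4 * X ^ (1 / 4 : ℝ)) := by
        gcongr
    _ ≤ k := h4

theorem lam_le : ∃ C : ℕ, ∀ (q u e s : ℕ) (I : Finset ℕ), 2 ≤ q → 1 ≤ u → 1 ≤ e → 1 ≤ s →
    q ≤ 2 ^ e * u → e * q ≤ s * q.totient → I.card ≤ 8 * u →
    (∀ x ∈ I, 1 ≤ x ∧ 2 * x < q ∧ x.Coprime q) → ∃ k₀ : ℕ, ∀ k : ℕ, k₀ ≤ k →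
      lam q (q * k) I ≤ 2 ^ (C * u * s * k) := by
  obtain ⟨C, hC⟩ := sum_primes_le
  refine ⟨2 * (C + 1), ?_⟩
  intro q u e s I hq hu he hs hqe hes hI hIx
  obtain ⟨k₀, hk₀⟩ := hC q u e s I hq hu he hs hqe hes hI hIx
  obtain ⟨k₁, hk₁⟩ := l4_small q (by omega)
  refine ⟨k₀ + k₁, fun k hk => ?_⟩
  have h1 := log_lcm_le (KS q (q * k) I) (q * k) (fun k' hk' => mem_Icc.1 (mem_filter.1 hk').1)
  have h2 := hk₁ k (by omega)
  have h3 := hk₀ k (by omega)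
  have h4 : ∑ p ∈ (Icc 1 (q * k)).filter
      (fun p => p.Prime ∧ q * k < p * p ∧ ∃ k' ∈ KS q (q * k) I, p ∣ k'), Real.log p ≤
      ∑ p ∈ (Icc 1 (q * k)).filter (fun p => p.Prime ∧ ∃ k' ∈ KS q (q * k) I, p ∣ k'),
        Real.log p := by
    refine sum_le_sum_of_subset_of_nonneg ?_ (fun p _ _ => Real.log_natCast_nonneg p)
    intro p hp
    rw [mem_filter] at hp ⊢
    exact ⟨hp.1, hp.2.1, hp.2.2.2⟩
  have hus : (k : ℝ) ≤ u * s * k := by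
    have h5 : (1 : ℝ) ≤ u * s := by exact_mod_cast Nat.mul_pos (by omega : 0 < u) (by omega : 0 < s)
    have : (0 : ℝ) ≤ k := Nat.cast_nonneg k
    nlinarith
  have h6 : Real.log ((lam q (q * k) I : ℕ) : ℝ) ≤ (C + 1) * u * s * k := by
    unfold lam
    calc _ ≤ _ := h1
      _ ≤ k + C * u * s * k := add_le_add h2 (h4.trans h3)
      _ ≤ u * s * k + C * u * s * k := by linarith
      _ = _ := by ring
  rcases Nat.eq_zero_or_pos (lam q (q * k) I) with h0 | h0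
  · rw [h0]; exact Nat.zero_le _
  have h0' : (0 : ℝ) < (lam q (q * k) I : ℕ) := by exact_mod_cast h0
  have h7 : Real.log ((lam q (q * k) I : ℕ) : ℝ) ≤
      Real.log ((2 ^ (2 * (C + 1) * u * s * k) : ℕ) : ℝ) := by
    refine h6.trans ?_
    push_cast
    rw [Real.log_pow]
    have h8 := Real.log_two_gt_d9
    push_cast
    have h9 : (0 : ℝ) ≤ (C + 1) * u * s * k := by positivity
    nlinarith
  have h10 := (Real.log_le_log_iff h0' (by positivity)).1 h7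
  exact_mod_cast h10

end HZ5
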