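import Pool.Agent.LibHZ5.Forms2
import Pool.Agent.LibHZ5.ZE
import Pool.Agent.LibHZ5.F
import Pool.Agent.LibHZ5.L4
import Pool.Agent.LibHZ89.Core2

/-!
# Power saving: the contradiction (assembly)
-/

namespace HZ5

open Finset Polynomial Filter Topology HZ89

/-- the final estimate -/
theorem final_bound2 {D : ℕ} (hD : 1 ≤ D) {B Z X W U D₁ H ε : ℝ} (hB : 0 ≤ B) (hZ : 0 ≤ Z)
    (hX : 1 ≤ X) (hW : 0 ≤ W) (hU : 0 < U) (hD₁ : 0 ≤ D₁) (hH0 : 0 ≤ H)
    (hH : H ≤ B * Z * X ^ 10 * W) (hε : ε ≤ D₁ * 200 * Z * X ^ 9 * W / U) :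
    D * D.factorial * B * H ^ (D - 1) * ε ≤
      (D * D.factorial * B * (B * Z) ^ (D - 1) * (D₁ * 200 * Z)) * X ^ (10 * D) * W ^ D / U := by
  obtain ⟨d, rfl⟩ : ∃ d, D = d + 1 := ⟨D - 1, by omega⟩
  rw [Nat.add_sub_cancel]
  have hX0 : 0 ≤ X := zero_le_one.trans hX
  have h1 : H ^ d ≤ (B * Z) ^ d * X ^ (10 * d) * W ^ d := by
    calc H ^ d ≤ (B * Z * X ^ 10 * W) ^ d := pow_le_pow_left₀ hH0 hH d
      _ = (B * Z) ^ d * X ^ (10 * d) * W ^ d := by rw [mul_pow, mul_pow, ← pow_mul]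
  have h2 : X ^ (10 * d) * X ^ 9 ≤ X ^ (10 * (d + 1)) := by
    rw [← pow_add]
    exact pow_le_pow_right₀ hX (by omega)
  have h3 : 0 ≤ ((d + 1 : ℕ) : ℝ) * (d + 1).factorial * B := by positivity
  calc ((d + 1 : ℕ) : ℝ) * (d + 1).factorial * B * H ^ d * ε
      ≤ ((d + 1 : ℕ) : ℝ) * (d + 1).factorial * B * H ^ d * (D₁ * 200 * Z * X ^ 9 * W / U) := by
        gcongr
    _ ≤ ((d + 1 : ℕ) : ℝ) * (d + 1).factorial * B * ((B * Z) ^ d * X ^ (10 * d) * W ^ d) *
          (D₁ * 200 * Z * X ^ 9 * W / U) := by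
        gcongr
    _ = (((d + 1 : ℕ) : ℝ) * (d + 1).factorial * B * (B * Z) ^ d * (D₁ * 200 * Z)) *
          (X ^ (10 * d) * X ^ 9) * W ^ (d + 1) / U := by
        rw [pow_succ W d]
        generalize X ^ (10 * d) = x1
        generalize X ^ 9 = x2
        ring
    _ ≤ (((d + 1 : ℕ) : ℝ) * (d + 1).factorial * B * (B * Z) ^ d * (D₁ * 200 * Z)) *
          X ^ (10 * (d + 1)) * W ^ (d + 1) / U := by
        gcongr

theorem core3 {q u e₀ s D C₁ : ℕ} {I : Finset ℕ} (hq : 1 ≤ q) (hu : 9 ≤ u) (he₀ : 1 ≤ e₀)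
    (hes : e₀ ≤ s) (hL : q ≤ 2 ^ e₀ * u) (huu : 2 ^ ((98 + 39 * C₁) * s * D + 1) ≤ u) (hD : 1 ≤ D)
    (hI : ∀ x ∈ I, 1 ≤ x ∧ 2 * x < q) (hcard : I.card = 8 * u)
    (hlam : ∃ k₀ : ℕ, ∀ k : ℕ, k₀ ≤ k → lam q (q * k) I ≤ 2 ^ (C₁ * u * s * k))
    (V : Submodule ℚ ℝ) [FiniteDimensional ℚ V]
    (hV : Module.finrank ℚ V = D) (h1 : (1 : ℝ) ∈ V) (hS : ∀ x ∈ I, S q x ∈ V) : False := by
  classical
  obtain ⟨r, hr1, hr, hr2, hr4⟩ := choose_r hu
  obtain ⟨k₀, hk₀⟩ := hlam
  have bas := Module.finBasisOfFinrankEq ℚ V hV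
  set ξ : Fin D → ℝ := fun i => (bas i : ℝ) with hξ
  have hrepr : ∀ v : V, (v : ℝ) = ∑ i, (bas.repr v i : ℝ) * ξ i := by
    intro v
    have h := congrArg (fun w : V => (w : ℝ)) (bas.sum_repr v)
    simp only [Submodule.coe_sum, Submodule.coe_smul, Rat.smul_def] at h
    exact h.symm
  -- the vectors
  set val : Option ℕ → V := fun o => match o with
    | none => ⟨1, h1⟩
    | some x => if h : x ∈ I then ⟨S q x, hS x h⟩ else 0 with hval
  obtain ⟨D₁, hD₁, hden⟩ := exists_den ((insertNone I) ×ˢ (univ : Finset (Fin D)))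
    (fun p : Option ℕ × Fin D => bas.repr (val p.1) p.2)
  have hex : ∀ o : Option ℕ, ∃ m : Fin D → ℤ, o ∈ insertNone I →
      ∀ i, (D₁ : ℚ) * bas.repr (val o) i = m i := by
    intro o
    by_cases ho : o ∈ insertNone I
    · have : ∀ i, ∃ m : ℤ, (D₁ : ℚ) * bas.repr (val o) i = m := fun i =>
        hden (o, i) (mem_product.2 ⟨ho, mem_univ i⟩)
      choose m hm using this
      exact ⟨m, fun _ => hm⟩
    · exact ⟨0, fun h => absurd h ho⟩
  choose m hm using hex
  have hmξ : ∀ o ∈ insertNone I, (D₁ : ℝ) * (val o : ℝ) = ∑ i, (m o i : ℝ) * ξ i := by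
    intro o ho
    rw [hrepr (val o), mul_sum]
    refine sum_congr rfl fun i _ => ?_
    have h := congrArg (fun r : ℚ => (r : ℝ)) (hm o ho i)
    push_cast at h
    rw [← mul_assoc, h]
  set b : ℕ → Fin D → ℤ := fun x => m (some x) with hb
  set e : Fin D → ℤ := m none with he
  have hbξ : ∀ x ∈ I, (D₁ : ℝ) * S q x = ∑ i, (b x i : ℝ) * ξ i := by
    intro x hx
    have h := hmξ (some x) (by simpa using hx)
    simpa [hval, hx] using h
  have heξ : (D₁ : ℝ) = ∑ i, (e i : ℝ) * ξ i := by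
    have h := hmξ none (by simp)
    simpa [hval] using h
  obtain ⟨B, hB1, hbB, heB⟩ : ∃ B : ℕ, 1 ≤ B ∧ (∀ x ∈ I, ∀ i, |b x i| ≤ B) ∧ ∀ i, |e i| ≤ B := by
    refine ⟨∑ x ∈ I, ∑ i, (b x i).natAbs + ∑ i, (e i).natAbs + 1, by omega, fun x hx i => ?_,
      fun i => ?_⟩
    · rw [Int.abs_eq_natAbs]
      have h2 : (b x i).natAbs ≤ ∑ i, (b x i).natAbs :=
        single_le_sum (f := fun i => (b x i).natAbs) (fun _ _ => Nat.zero_le _) (mem_univ i)
      have h3 : ∑ i, (b x i).natAbs ≤ ∑ x ∈ I, ∑ i, (b x i).natAbs :=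
        single_le_sum (f := fun x => ∑ i, (b x i).natAbs) (fun _ _ => Nat.zero_le _) hx
      exact_mod_cast (by omega : (b x i).natAbs ≤ _)
    · rw [Int.abs_eq_natAbs]
      have h2 : (e i).natAbs ≤ ∑ i, (e i).natAbs :=
        single_le_sum (f := fun i => (e i).natAbs) (fun _ _ => Nat.zero_le _) (mem_univ i)
      exact_mod_cast (by omega : (e i).natAbs ≤ _)
  have hq0 : (0 : ℝ) < q := by exact_mod_cast hq
  have hu0 : (0 : ℝ) < u := by exact_mod_cast (by omega : 0 < u)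
  have hD₁0 : (0 : ℝ) < D₁ := by exact_mod_cast hD₁
  have hB0 : (0 : ℝ) < B := by exact_mod_cast hB1
  obtain ⟨Z, hZ⟩ : ∃ Z : ℝ, ((16 : ℝ) * u) ^ 9 = Z := ⟨_, rfl⟩
  have hZ1 : 1 ≤ Z := by
    rw [← hZ]
    refine one_le_pow₀ ?_
    have : (9 : ℝ) ≤ u := by exact_mod_cast hu
    linarith
  -- the inequality for one `n`
  have key : ∀ n : ℕ, 9 + k₀ ≤ n → (D₁ : ℝ) ≤
      (D * D.factorial * B * (B * Z) ^ (D - 1) * (D₁ * 200 * Z)) * ((n : ℝ) + 2) ^ (10 * D) *
        2 ^ ((98 + 39 * C₁) * s * D * u * n) / 2 ^ (((98 + 39 * C₁) * s * D + 1) * u * n) := by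
    intro n hnk
    have hn : 9 ≤ n := by omega
    have hn1 : 1 ≤ n := by omega
    obtain ⟨c, hc0, hM, hk⟩ := all_forms2 hq (by omega : 1 ≤ u) he₀ hes hr1 hr hr2 hr4 hI hcard hL hn1
      (hk₀ _ (by nlinarith))
    obtain ⟨Λ, hΛdef⟩ : ∃ Λ : ℕ, lam q (q * n) I = Λ := ⟨_, rfl⟩
    have hΛd : ∀ k ∈ KS q (q * n) I, k ∣ Λ := by
      intro k hk
      rw [← hΛdef]
      exact Finset.dvd_lcm (f := id) hk
    have hF := fun k : ℕ => forms2 hq hn1 hI hΛd ξ b e hbξ heξ hbB heB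
      (fun j => c j * (BB (q * n) k j : ℤ))
    choose z hz1 hz2 hz3 using hF
    have hΛ0 : 0 < Λ := by
      rw [← hΛdef, Nat.pos_iff_ne_zero]
      unfold lam
      rw [Ne, Finset.lcm_eq_zero_iff]
      simp only [Set.mem_image, not_exists, not_and, id]
      intro x hx h0
      have := (mem_Icc.1 (mem_filter.1 hx).1).1
      omega
    have hΛ3 : (Λ : ℝ) ^ 3 ≤ 2 ^ (3 * C₁ * u * s * n) := by
      have h2 : (Λ : ℝ) ≤ 2 ^ (C₁ * u * s * n) := by
        rw [← hΛdef]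
        exact_mod_cast hk₀ n (by omega)
      calc (Λ : ℝ) ^ 3 ≤ (2 ^ (C₁ * u * s * n)) ^ 3 := pow_le_pow_left₀ (by positivity) h2 3
        _ = 2 ^ (3 * C₁ * u * s * n) := by rw [← pow_mul]; congr 1; ring
    have hP : (P q n I).card = 8 * u * n := by rw [card_P hq hI, hcard]
    have hY : ((16 : ℝ) * u * n) ^ 9 ≤ Z * ((n : ℝ) + 2) ^ 9 := by
      rw [mul_pow ((16 : ℝ) * u), hZ]
      have : (n : ℝ) ^ 9 ≤ ((n : ℝ) + 2) ^ 9 := pow_le_pow_left₀ (by positivity) (by linarith) 9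
      gcongr
    have hsum : ∀ k ≤ 3 * u * n, ∑ j ∈ P q n I, |((c j * (BB (q * n) k j : ℤ) : ℤ) : ℝ)| ≤
        Z * ((n : ℝ) + 2) ^ 9 * 2 ^ ((98 + 36 * C₁) * u * s * n) := by
      intro k hkk
      calc ∑ j ∈ P q n I, |((c j * (BB (q * n) k j : ℤ) : ℤ) : ℝ)|
          ≤ ∑ _j ∈ P q n I, ((16 * u * n : ℝ) ^ 8 * 2 ^ ((98 + 36 * C₁) * u * s * n)) := by
            refine sum_le_sum fun j hj => ?_
            exact_mod_cast (hk k hkk).1 j hj
        _ = (8 * u * n) * ((16 * u * n : ℝ) ^ 8 * 2 ^ ((98 + 36 * C₁) * u * s * n)) := by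
            rw [sum_const, hP, nsmul_eq_mul]
            push_cast
            rfl
        _ ≤ (16 * u * n) * ((16 * u * n : ℝ) ^ 8 * 2 ^ ((98 + 36 * C₁) * u * s * n)) := by
            gcongr
            norm_num
        _ = (16 * u * n) ^ 9 * 2 ^ ((98 + 36 * C₁) * u * s * n) := by
            ring
        _ ≤ Z * ((n : ℝ) + 2) ^ 9 * 2 ^ ((98 + 36 * C₁) * u * s * n) := by gcongr
    obtain ⟨X, hX⟩ : ∃ X : ℝ, (n : ℝ) + 2 = X := ⟨_, rfl⟩
    have hX1 : 1 ≤ X := by rw [← hX]; linarith [(Nat.cast_nonneg n : (0 : ℝ) ≤ n)]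
    have hW : (2 : ℝ) ^ (3 * C₁ * u * s * n) * 2 ^ ((98 + 36 * C₁) * u * s * n) =
        2 ^ ((98 + 39 * C₁) * u * s * n) := by
      rw [← pow_add]; congr 1; ring
    -- the functional
    have hspan : ∀ φ : Fin D → ℚ, (∀ k ≤ 3 * u * n, ∑ i, φ i * z k i = 0) →
        ∑ i, φ i * e i = 0 := by
      intro φ hφ
      by_contra hne
      set φe : ℝ := ∑ i, (φ i : ℝ) * e i with hφe
      have hφe0 : φe ≠ 0 := by
        intro h0
        apply hne
        have h2 : ((∑ i, φ i * e i : ℚ) : ℝ) = 0 := by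
          push_cast
          rw [← h0]
        exact_mod_cast h2
      set β : ℕ → ℝ := fun x => (∑ i, (φ i : ℝ) * b x i) / φe with hβ
      have hv : ∃ v, u * n = v := ⟨_, rfl⟩
      obtain ⟨v, hv⟩ := hv
      have hv9 : 9 * u ≤ v := by rw [← hv, mul_comm]; exact Nat.mul_le_mul_left _ hn
      have e1 : 8 * u * n = 8 * v := by rw [← hv]; ring
      have e2 : 6 * u * n = 6 * v := by rw [← hv]; ring
      have e3 : 3 * u * n = 3 * v := by rw [← hv]; ring
      have e4 : 8 * u * (n - 1) = 8 * v - 8 * u := by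
        rw [Nat.mul_sub, e1, mul_one]
      refine zero_est2 (d := 6 * u * n) (F := 3 * u * n) hq hn1 hI (c := fun j => (c j : ℝ))
        (by rw [hcard, e1, e2, e3, e4]; omega) (by rw [hcard, e1, e2, e4]; omega) ?_ hM β ?_
      · obtain ⟨j, hj, hcj⟩ := hc0
        exact ⟨j, hj, by exact_mod_cast hcj⟩
      · intro k hkk
        have h2 : ∑ i, (φ i : ℝ) * (z k i : ℝ) = 0 := by
          have := congrArg (fun r : ℚ => (r : ℝ)) (hφ k hkk)
          push_cast at this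
          exact this
        have h3 : ∑ i, (φ i : ℝ) * (z k i : ℝ) = (Λ : ℝ) ^ 3 * (φe *
            ∑ j ∈ P q n I, (c j : ℝ) * (BB (q * n) k j : ℝ) * (β (j % q) - ps q n j)) := by
          calc ∑ i, (φ i : ℝ) * (z k i : ℝ)
              = ∑ i, (φ i : ℝ) * ((Λ : ℝ) ^ 3 *
                  ∑ j ∈ P q n I, ((c j * (BB (q * n) k j : ℤ) : ℤ) : ℝ) *
                    ((b (j % q) i : ℝ) - (e i : ℝ) * ps q n j)) := by
                refine sum_congr rfl fun i _ => ?_
                rw [hz1 k i]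
            _ = (Λ : ℝ) ^ 3 * ∑ j ∈ P q n I,
                  ∑ i, (φ i : ℝ) * (((c j * (BB (q * n) k j : ℤ) : ℤ) : ℝ) *
                    ((b (j % q) i : ℝ) - (e i : ℝ) * ps q n j)) := by
                rw [sum_comm, mul_sum]
                refine sum_congr rfl fun i _ => ?_
                rw [mul_sum]
                ring_nf
                rw [mul_sum, mul_sum]
                refine sum_congr rfl fun j _ => ?_
                ring
            _ = _ := by
                congr 1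
                rw [mul_sum]
                refine sum_congr rfl fun j _ => ?_
                rw [hβ, hφe]
                have h4 : (c j : ℝ) * (BB (q * n) k j : ℝ) *
                    ((∑ i, (φ i : ℝ) * b (j % q) i) / φe - ps q n j) * φe =
                    (c j : ℝ) * (BB (q * n) k j : ℝ) *
                    ((∑ i, (φ i : ℝ) * b (j % q) i) - φe * ps q n j) := by
                  field_simp
                rw [← hφe, mul_comm φe, h4, hφe, sum_mul, ← sum_sub_distrib, mul_sum]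
                refine sum_congr rfl fun i _ => ?_
                push_cast
                ring
        rw [h2] at h3
        have h5 : (Λ : ℝ) ^ 3 ≠ 0 := by positivity
        have h6 := (mul_eq_zero.1 h3.symm).resolve_left h5
        exact (mul_eq_zero.1 h6).resolve_left hφe0
    set H : ℝ := 2 ^ (3 * C₁ * u * s * n) * B * X * (Z * X ^ 9 * 2 ^ ((98 + 36 * C₁) * u * s * n)) with hH
    set ε : ℝ := D₁ * 2 ^ (3 * C₁ * u * s * n) * (200 * (Z * X ^ 9) * 2 ^ ((98 + 36 * C₁) * u * s * n) /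
      u ^ (u * n)) with hε
    have hHle : H ≤ B * Z * X ^ 10 * 2 ^ ((98 + 39 * C₁) * u * s * n) := by
      rw [hH, ← hW, pow_succ X 9]
      apply le_of_eq
      generalize X ^ 9 = x1
      ring
    have hH1 : 1 ≤ H := by
      have e1 : (1 : ℝ) ≤ 2 ^ (3 * C₁ * u * s * n) := one_le_pow₀ one_le_two
      have e2 : (1 : ℝ) ≤ B := by exact_mod_cast hB1
      have e3 : (1 : ℝ) ≤ X ^ 9 := one_le_pow₀ hX1
      have e4 : (1 : ℝ) ≤ 2 ^ ((98 + 36 * C₁) * u * s * n) := one_le_pow₀ one_le_two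
      rw [hH]
      have e5 : 1 ≤ Z * X ^ 9 := one_le_mul_of_one_le_of_one_le hZ1 e3
      exact one_le_mul_of_one_le_of_one_le (one_le_mul_of_one_le_of_one_le
        (one_le_mul_of_one_le_of_one_le e1 e2) hX1) (one_le_mul_of_one_le_of_one_le e5 e4)
    have hcr := crit (K := 3 * u * n) z e hspan ξ (H := H) (E := B) (ε := ε) hH1 hB0.le
      (by rw [hε]; positivity)
      (fun k hkk i => by
        refine (hz3 k i).trans ?_
        rw [hH, hX]
        have := hsum k hkk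
        rw [hX] at this
        gcongr)
      (fun i => by exact_mod_cast heB i)
      (fun k hkk => by
        rw [← hz2 k, abs_mul, abs_of_nonneg (by positivity : (0 : ℝ) ≤ (D₁ : ℝ) *
          (Λ : ℝ) ^ 3), hε]
        have h2 := (hk k hkk).2
        rw [abs_mul, abs_of_nonneg (by positivity : (0 : ℝ) ≤ 1 / (q : ℝ) ^ 3)]
        have h3 : 1 / (q : ℝ) ^ 3 ≤ 1 := by
          rw [div_le_one (by positivity)]
          exact one_le_pow₀ (by exact_mod_cast hq)
        have h4 : |ell n (P q n I) (om q n)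
            (fun j => ((c j * (BB (q * n) k j : ℤ) : ℤ) : ℝ))| ≤
            200 * (Z * X ^ 9) * 2 ^ ((98 + 36 * C₁) * u * s * n) / u ^ (u * n) := by
          rw [le_div_iff₀ (by positivity)]
          refine h2.trans ?_
          rw [← hX]
          gcongr
        calc (D₁ : ℝ) * (Λ : ℝ) ^ 3 * (1 / (q : ℝ) ^ 3 *
              |ell n (P q n I) (om q n) (fun j => ((c j * (BB (q * n) k j : ℤ) : ℤ) : ℝ))|)
            ≤ (D₁ : ℝ) * 2 ^ (3 * C₁ * u * s * n) * (1 *
              (200 * (Z * X ^ 9) * 2 ^ ((98 + 36 * C₁) * u * s * n) / u ^ (u * n))) := by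
              gcongr
          _ = _ := by rw [one_mul])
    rw [← heξ, abs_of_pos hD₁0] at hcr
    refine hcr.trans ?_
    have hfb := final_bound2 (D := D) hD (B := B) (Z := Z) (X := X)
      (W := 2 ^ ((98 + 39 * C₁) * u * s * n))
      (U := u ^ (u * n)) (D₁ := D₁) (H := H) (ε := ε) hB0.le (by linarith) hX1
      (by positivity) (by positivity) hD₁0.le (by linarith) hHle
      (by
        rw [hε, ← hW]
        apply le_of_eq
        generalize X ^ 9 = x1
        ring)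
    refine hfb.trans ?_
    rw [hX, ← pow_mul]
    have e1 : (98 + 39 * C₁) * u * s * n * D = (98 + 39 * C₁) * s * D * u * n := by ring
    rw [e1]
    have hU : (2 : ℝ) ^ (((98 + 39 * C₁) * s * D + 1) * u * n) ≤ u ^ (u * n) := by
      have h2 : (2 : ℕ) ^ (((98 + 39 * C₁) * s * D + 1) * u * n) ≤ u ^ (u * n) := by
        calc 2 ^ (((98 + 39 * C₁) * s * D + 1) * u * n) =
              (2 ^ ((98 + 39 * C₁) * s * D + 1)) ^ (u * n) := by
              rw [← pow_mul]; congr 1; ring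
          _ ≤ u ^ (u * n) := Nat.pow_le_pow_left huu _
      exact_mod_cast h2
    gcongr
  -- the limit
  have hlim := tendsto_growth (D * D.factorial * B * (B * Z) ^ (D - 1) * (D₁ * 200 * Z)) (10 * D)
    ((98 + 39 * C₁) * s * D * u) (((98 + 39 * C₁) * s * D + 1) * u) (by
      have : 1 ≤ u := by omega
      nlinarith)
  have h2 := hlim.eventually (gt_mem_nhds hD₁0)
  obtain ⟨n, hn1, hn2⟩ := (h2.and (eventually_ge_atTop (9 + k₀))).exists
  exact absurd (key n hn2) (not_le.2 hn1)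

end HZ5
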