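import Pool.Agent.LibHZ5.S
import Pool.Agent.LibHZ89.B1
import Pool.Agent.LibHZ89.B2
import Pool.Agent.LibHZ89.D2
import Pool.Agent.LibHZ89.G2

/-!
# The small linear forms

For every `n ≥ 1` there are integral coefficients `c j`, not all zero on `P q n I`, orthogonal to all
polynomials in `om` of degree `< 398 u n`, such that all forms `ell (c * B_k)`, `k ≤ 48 u n`, are small.
-/

namespace HZ5

open Finset Polynomial Filter Topology HZ89

/-- The small linear forms. -/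
theorem all_forms2 {q u r e s C₁ : ℕ} {I : Finset ℕ} (hq : 1 ≤ q) (hu : 1 ≤ u) (he : 1 ≤ e)
    (hes : e ≤ s) (hr1 : 1 ≤ r) (hr : 3 * r ≤ u) (hr2 : r * (r + 1) ≤ 2 * u) (hr4 : u ≤ (2 * r) ^ 2)
    (hI : ∀ x ∈ I, 1 ≤ x ∧ 2 * x < q) (hcard : I.card = 8 * u) (hL : q ≤ 2 ^ e * u) {n : ℕ}
    (hn : 1 ≤ n) (hlam : lam q (q * ((r + 1) * n)) I ≤ 2 ^ (C₁ * u * s * ((r + 1) * n))) :
    ∃ c : ℕ → ℤ, (∃ j ∈ P q n I, c j ≠ 0) ∧
      Mom (P q n I) (om q n) (6 * u * n) (fun j => (c j : ℝ)) ∧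
      ∀ k ≤ 3 * u * n,
        (∀ j ∈ P q n I, |c j * (BB (q * n) k j : ℤ)| ≤
          (16 * u * n) ^ 8 * 2 ^ ((98 + 36 * C₁) * u * s * n)) ∧
        |ell n (P q n I) (om q n) (fun j => ((c j * (BB (q * n) k j : ℤ) : ℤ) : ℝ))| *
          u ^ (u * n) ≤ 200 * (16 * u * n) ^ 9 * 2 ^ ((98 + 36 * C₁) * u * s * n) := by
  obtain ⟨c, hc0, hcA, hcB, hcz⟩ := exists_c' hq hu he hes hr hr2 hn hI hcard hL hlam
  set Q := P q n I with hQ
  have hcardQ : Q.card = 8 * u * n := by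
    rw [hQ, card_P hq hI, hcard]
  have hpos : ∀ j ∈ Q, 0 < om q n j := fun j hj => om_pos hI hj
  have hle : ∀ j ∈ Q, om q n j ≤ (n : ℝ) ^ 2 / 4 := fun j _ => om_le j
  have hjL : ∀ j ∈ Q, j ≤ q * n := fun j hj => (mem_P hI hj).2.1.le
  -- moments
  have hM : Mom Q (om q n) (6 * u * n) (fun j => (c j : ℝ)) := by
    intro p hp
    have h := bp_span (q := q) (n := n) (d := 6 * u * n) hq
      (∑ j ∈ Q, (c j : ℝ) • Polynomial.leval (om q n j)) (fun k hk => ?_) p hp
    · simpa [LinearMap.sum_apply, Polynomial.leval_apply] using h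
    · have h1 := hcB k hk
      rw [LinearMap.sum_apply]
      have h2 : ∀ j ∈ Q, ((c j : ℝ) • Polynomial.leval (om q n j)) (bp q n k) =
          ((c j * (BB (q * n) k j : ℤ) : ℤ) : ℝ) := by
        intro j hj
        simp only [LinearMap.smul_apply, Polynomial.leval_apply, smul_eq_mul]
        rw [bp_eval hq (hjL j hj)]
        push_cast
        ring
      rw [Finset.sum_congr rfl h2, ← Int.cast_sum, h1, Int.cast_zero]
  have hvz : ∀ t : ℕ, 1 ≤ t → ∀ j ∈ Q, vv n t + om q n j ≠ 0 := by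
    intro t ht j hj
    have h1 := hpos j hj
    have h2 : 0 < vv n t := by
      unfold vv
      positivity
    positivity
  have hun : 1 ≤ u * n := Nat.mul_pos hu hn
  have hrn : 3 * (r * n) ≤ u * n := by nlinarith
  have e6 : 6 * u * n = 6 * (u * n) := by ring
  have e3 : 3 * u * n = 3 * (u * n) := by ring
  refine ⟨c, hc0, hM, fun k hk => ?_⟩
  have hcast : ∀ j ∈ Q, (c j : ℝ) * (bp q n k).eval (om q n j) =
      ((c j * (BB (q * n) k j : ℤ) : ℤ) : ℝ) := by
    intro j hj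
    rw [bp_eval hq (hjL j hj)]
    push_cast
    ring
  have hell : ell n Q (om q n) (fun j => (c j : ℝ) * (bp q n k).eval (om q n j)) =
      ell n Q (om q n) (fun j => ((c j * (BB (q * n) k j : ℤ) : ℤ) : ℝ)) := by
    unfold ell FF
    congr 1
    ext t
    exact Finset.sum_congr rfl fun j hj => by beta_reduce; rw [hcast j hj]
  have hbd : ∀ j ∈ Q, |c j * (BB (q * n) k j : ℤ)| ≤
      (16 * u * n) ^ 8 * 2 ^ ((98 + 36 * C₁) * u * s * n) := by
    intro j hj
    rw [abs_mul]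
    have h1 : |((BB (q * n) k j : ℕ) : ℤ)| ≤ 2 ^ (14 * u * s * n) := by
      rw [Nat.abs_cast]
      have h3 : q * n ≤ 2 ^ e * (u * n) := by
        rw [← mul_assoc]
        exact Nat.mul_le_mul_right n hL
      have h4 := BB_le' (k := k) (N := u * n) (hjL j hj) he h3 (by omega)
      have h5 : 14 * (u * n) * e ≤ 14 * u * s * n := by
        calc 14 * (u * n) * e ≤ 14 * (u * n) * s := Nat.mul_le_mul_left _ hes
          _ = 14 * u * s * n := by ring
      exact_mod_cast h4.trans (Nat.pow_le_pow_right (by norm_num) h5)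
    calc |c j| * |((BB (q * n) k j : ℕ) : ℤ)|
        ≤ ((16 * u * n) ^ 8 * 2 ^ ((84 + 36 * C₁) * u * s * n)) * 2 ^ (14 * u * s * n) := by
          gcongr
          exact hcA j
      _ = (16 * u * n) ^ 8 * 2 ^ ((98 + 36 * C₁) * u * s * n) := by
          rw [mul_assoc, ← pow_add]
          congr 2
          ring
  refine ⟨hbd, ?_⟩
  -- smallness
  have hM2 : Mom Q (om q n) (3 * (u * n))
      (fun j => (c j : ℝ) * (bp q n k).eval (om q n j)) := by
    refine Mom.mul hM _ ?_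
    rw [bp_natDegree hq]
    omega
  have hsm := small (T := r * n) (m := u * n) hn (by nlinarith) hpos hle hM2 (fun t h1 h2 =>
    vanish hM (by omega) (hvz t h1) (fun i hi1 hi2 => hcz t h1 h2 i hi1 hi2) _
      (by rw [bp_natDegree hq]; omega))
  rw [← hell]
  have hsum : ∑ j ∈ Q, |(c j : ℝ) * (bp q n k).eval (om q n j)| ≤
      (16 * u * n) ^ 9 * 2 ^ ((98 + 36 * C₁) * u * s * n) := by
    calc ∑ j ∈ Q, |(c j : ℝ) * (bp q n k).eval (om q n j)|
        ≤ ∑ _j ∈ Q, ((16 * u * n : ℝ) ^ 8 * 2 ^ ((98 + 36 * C₁) * u * s * n)) := by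
          refine Finset.sum_le_sum fun j hj => ?_
          rw [hcast j hj]
          exact_mod_cast hbd j hj
      _ = (8 * u * n) * ((16 * u * n : ℝ) ^ 8 * 2 ^ ((98 + 36 * C₁) * u * s * n)) := by
          rw [Finset.sum_const, hcardQ, nsmul_eq_mul]
          push_cast
          ring
      _ ≤ (16 * u * n) * ((16 * u * n : ℝ) ^ 8 * 2 ^ ((98 + 36 * C₁) * u * s * n)) := by
          gcongr
          norm_num
      _ = (16 * u * n) ^ 9 * 2 ^ ((98 + 36 * C₁) * u * s * n) := by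
          ring
  have hrat : ((n : ℝ) / (2 * (r * n : ℕ))) ^ (2 * (u * n)) * (u : ℝ) ^ (u * n) ≤ 1 := by
    have hn0 : (0 : ℝ) < n := by exact_mod_cast hn
    have hr0 : (0 : ℝ) < r := by exact_mod_cast hr1
    have h1 : (n : ℝ) / (2 * (r * n : ℕ)) = 1 / (2 * r) := by
      push_cast
      field_simp
    rw [h1, pow_mul, ← mul_pow]
    apply pow_le_one₀
    · positivity
    · rw [div_pow, one_pow, div_mul_eq_mul_div, one_mul, div_le_one (by positivity)]
      exact_mod_cast hr4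
  calc |ell n Q (om q n) (fun j => (c j : ℝ) * (bp q n k).eval (om q n j))| * (u : ℝ) ^ (u * n)
      ≤ (200 * (∑ j ∈ Q, |(c j : ℝ) * (bp q n k).eval (om q n j)|) *
          ((n : ℝ) / (2 * (r * n : ℕ))) ^ (2 * (u * n))) * (u : ℝ) ^ (u * n) := by
        gcongr
    _ = 200 * (∑ j ∈ Q, |(c j : ℝ) * (bp q n k).eval (om q n j)|) *
          (((n : ℝ) / (2 * (r * n : ℕ))) ^ (2 * (u * n)) * (u : ℝ) ^ (u * n)) := by ring
    _ ≤ 200 * ((16 * u * n) ^ 9 * 2 ^ ((98 + 36 * C₁) * u * s * n)) * 1 := by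
        gcongr
    _ = 200 * (16 * u * n) ^ 9 * 2 ^ ((98 + 36 * C₁) * u * s * n) := by
        ring

end HZ5
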