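import Mathlib

/-!
# Row G: the choice of `u, e, s` (ONLY MATHLIB, STRONG, 60 min)

Plan: `ρ = q / φ(q) ≥ 1`, `u = M / 8` (natural division).  `M > 200 * q^(…) ≥ 200` (the exponent is `≥ 0`
since `φ(q) ≤ q`, `D ≥ 1`, `C₂ ≥ 1`), so `u ≥ 9` and `M < 8 u + 8 ≤ 9 u`.
`e = Nat.clog 2 ((q + u - 1) / u)`: `q ≤ 2^e u`, and `2^(e-1) < (q+u-1)/u ≤ 2 q/u`, so `2^e < 4 q/u`,
`e ≤ log₂ (q/u) + 2`; `e ≥ 1` since `16 u ≤ 2 M < q`.
`s` = the ceiling of `e q / φ(q)`, so `e q ≤ s φ(q)` and `s < e ρ + 1`.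
If `u < 2^(C₂ s D + 1)` then `log₂ u < C₂ D (e ρ + 1) + 1 ≤ C₂ D ρ (e + 2) ≤ C₂ D ρ (log₂ q - log₂ u + 4)`, hence
`log₂ u ≤ (1 - 1/(1 + C₂ D ρ)) (log₂ q + 4) ≤ 4 + (1 - 1/(2 C₂ D ρ)) log₂ q`,
`u ≤ 16 q^(1 - 1/(2 C₂ D ρ))` and `M < 9 u ≤ 144 q^(…)`, a contradiction.
-/

namespace HZ5

theorem choose_ues {C₂ q M D : ℕ} (hC : 1 ≤ C₂) (hq : 2 ≤ q) (hD : 1 ≤ D) (hM : 2 * M < q)
    (h : 200 * (q : ℝ) ^ (1 - 1 / (2 * C₂ : ℝ) * ((q.totient : ℝ) / (q * D))) < M) :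
    ∃ u e s : ℕ, 9 ≤ u ∧ 8 * u ≤ M ∧ 1 ≤ e ∧ e ≤ s ∧ q ≤ 2 ^ e * u ∧ e * q ≤ s * q.totient ∧
      2 ^ (C₂ * s * D + 1) ≤ u := by
  set f := q.totient with hf
  have hf0 : 0 < f := Nat.totient_pos.2 (by omega)
  have hfq : f ≤ q := Nat.totient_le q
  have hqR : (2 : ℝ) ≤ q := by exact_mod_cast hq
  have hq0 : (0 : ℝ) < q := by linarith
  have hfR : (0 : ℝ) < f := by exact_mod_cast hf0
  have hfqR : (f : ℝ) ≤ q := by exact_mod_cast hfq
  have hCR : (1 : ℝ) ≤ C₂ := by exact_mod_cast hC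
  have hDR : (1 : ℝ) ≤ D := by exact_mod_cast hD
  set K : ℝ := C₂ * D * ((q : ℝ) / f) with hK
  have hρ : (1 : ℝ) ≤ (q : ℝ) / f := by rwa [one_le_div hfR]
  have hCD : (1 : ℝ) ≤ C₂ * D := by nlinarith
  have hK1 : 1 ≤ K := by rw [hK]; nlinarith
  have hKCD : (C₂ * D : ℝ) ≤ K := by
    rw [hK]
    exact le_mul_of_one_le_right (by linarith) hρ
  have hβ : 1 / (2 * C₂ : ℝ) * ((f : ℝ) / (q * D)) = 1 / (2 * K) := by
    rw [hK]
    field_simp
  rw [hβ] at h
  set β : ℝ := 1 / (2 * K) with hβdef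
  have hβ0 : 0 < β := by rw [hβdef]; positivity
  have hβ1 : β ≤ 1 / 2 := by
    rw [hβdef]
    exact one_div_le_one_div_of_le (by norm_num) (by linarith)
  have hq1 : (1 : ℝ) ≤ (q : ℝ) ^ (1 - β) := Real.one_le_rpow (by linarith) (by linarith)
  have hM200 : (200 : ℝ) < M := by linarith
  have hM200' : 200 < M := by exact_mod_cast hM200
  obtain ⟨u, hu⟩ : ∃ u, u = M / 8 := ⟨_, rfl⟩
  have hu1 : 9 ≤ u := by omega
  have hu2 : 8 * u ≤ M := by omega
  have hu3 : M < 9 * u := by omega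
  have huR : (0 : ℝ) < u := by
    have : 0 < u := by omega
    exact_mod_cast this
  have hex : ∃ e, q ≤ 2 ^ e * u := by
    refine ⟨q, ?_⟩
    have h1 : q < 2 ^ q := Nat.lt_two_pow_self
    nlinarith
  obtain ⟨e, he1, he2⟩ : ∃ e, q ≤ 2 ^ e * u ∧ ∀ m, m < e → ¬ (q ≤ 2 ^ m * u) :=
    ⟨Nat.find hex, Nat.find_spec hex, fun m hm => Nat.find_min hex hm⟩
  have he0 : 1 ≤ e := by
    rcases Nat.eq_zero_or_pos e with h0 | h0
    · rw [h0] at he1; simp at he1; omega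
    · exact h0
  have he3 : 2 ^ (e - 1) * u < q := not_le.1 (he2 (e - 1) (by omega))
  obtain ⟨s, hs⟩ : ∃ s, s = (e * q + f - 1) / f := ⟨_, rfl⟩
  have hs1 : e * q ≤ s * f := by
    have h1 := Nat.div_add_mod (e * q + f - 1) f
    have h2 := Nat.mod_lt (e * q + f - 1) hf0
    rw [← hs] at h1
    have h3 : f * s = s * f := mul_comm _ _
    omega
  have hs2 : s * f ≤ e * q + f - 1 := by
    rw [hs]; exact Nat.div_mul_le_self _ _
  have hes : e ≤ s := by
    by_contra hc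
    have h1 : (s + 1) * f ≤ e * f := Nat.mul_le_mul_right f (by omega)
    have h2 : e * f ≤ e * q := Nat.mul_le_mul_left e hfq
    have h3 : (s + 1) * f = s * f + f := by ring
    omega
  refine ⟨u, e, s, hu1, hu2, he0, hes, he1, hs1, ?_⟩
  by_contra hcon
  have hlt : u < 2 ^ (C₂ * s * D + 1) := not_le.1 hcon
  -- logarithms
  have hl2 : 0 < Real.log 2 := Real.log_pos (by norm_num)
  have hL1 : Real.log u < (C₂ * s * D + 1) * Real.log 2 := by
    have h1 : (u : ℝ) < 2 ^ (C₂ * s * D + 1) := by exact_mod_cast hlt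
    have h2 := Real.log_lt_log huR h1
    rw [Real.log_pow] at h2
    push_cast at h2
    exact h2
  have hL2 : ((e : ℝ) - 1) * Real.log 2 + Real.log u < Real.log q := by
    have h1 : (2 : ℝ) ^ (e - 1) * u < q := by exact_mod_cast he3
    have h2 := Real.log_lt_log (by positivity) h1
    rw [Real.log_mul (by positivity) huR.ne', Real.log_pow, Nat.cast_sub he0] at h2
    push_cast at h2
    exact h2
  have hsR : (s : ℝ) ≤ e * ((q : ℝ) / f) + 1 := by
    have h1 : s * f ≤ e * q + f := by omega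
    have h2 : (s : ℝ) * f ≤ e * q + f := by exact_mod_cast h1
    have h3 : (s : ℝ) ≤ (e * q + f) / f := by rwa [le_div_iff₀ hfR]
    have h4 : ((e : ℝ) * q + f) / f = e * ((q : ℝ) / f) + 1 := by
      field_simp
    rwa [h4] at h3
  have he0R : (1 : ℝ) ≤ e := by exact_mod_cast he0
  have hbig : (C₂ * s * D + 1 : ℝ) ≤ K * (e + 2) := by
    have h1 : (C₂ * s * D : ℝ) ≤ C₂ * D * (e * ((q : ℝ) / f) + 1) := by
      have : (C₂ * s * D : ℝ) = C₂ * D * s := by ring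
      rw [this]
      exact mul_le_mul_of_nonneg_left hsR (by linarith)
    have h2 : (C₂ * D * (e * ((q : ℝ) / f) + 1) : ℝ) = K * e + C₂ * D := by rw [hK]; ring
    linarith
  have hQ0 : 0 ≤ Real.log q := Real.log_nonneg (by linarith)
  have hL3 : Real.log u ≤ K * (Real.log q - Real.log u + 3 * Real.log 2) := by
    have h1 : (C₂ * s * D + 1 : ℝ) * Real.log 2 ≤ K * (e + 2) * Real.log 2 :=
      mul_le_mul_of_nonneg_right hbig hl2.le
    have h2 : ((e : ℝ) + 2) * Real.log 2 ≤ Real.log q - Real.log u + 3 * Real.log 2 := by linarith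
    have h3 : K * (((e : ℝ) + 2) * Real.log 2) ≤
        K * (Real.log q - Real.log u + 3 * Real.log 2) :=
      mul_le_mul_of_nonneg_left h2 (by linarith)
    linarith
  have hL4 : Real.log u ≤ (1 - β) * Real.log q + 3 * Real.log 2 := by
    have h1 : Real.log u * (1 + K) ≤ K * (Real.log q + 3 * Real.log 2) := by linarith
    have h2 : Real.log u ≤ K * (Real.log q + 3 * Real.log 2) / (1 + K) := by
      rwa [le_div_iff₀ (by linarith)]
    refine h2.trans ?_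
    rw [div_le_iff₀ (by linarith)]
    have h3 : β * (1 + K) ≤ 1 := by
      rw [hβdef, div_mul_eq_mul_div, div_le_one (by linarith)]
      linarith
    have h4 : β * (1 + K) * Real.log q ≤ Real.log q := by
      nlinarith
    nlinarith
  have hfin : (u : ℝ) ≤ 8 * (q : ℝ) ^ (1 - β) := by
    have h1 := Real.exp_le_exp.2 hL4
    rw [Real.exp_log huR, Real.exp_add] at h1
    have h2 : Real.exp (3 * Real.log 2) = 8 := by
      have : (3 : ℝ) * Real.log 2 = Real.log (2 ^ 3) := by rw [Real.log_pow]; norm_num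
      rw [this, Real.exp_log (by norm_num)]; norm_num
    have h3 : Real.exp ((1 - β) * Real.log q) = (q : ℝ) ^ (1 - β) := by
      rw [Real.rpow_def_of_pos hq0, mul_comm]
    rw [h2, h3] at h1
    linarith
  have hu3R : (M : ℝ) < 9 * u := by exact_mod_cast hu3
  linarith

end HZ5
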