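import Mathlib

/-!
# Row L2: the logarithm of a least common multiple (ONLY MATHLIB, MEDIUM, 40 min)

Plan: let `R = (∏ p ∈ primes ≤ sqrt X, p ^ Nat.log p X) * ∏ p ∈ F, p`, `F` = the primes `p ≤ X` with
`X < p * p` dividing some `k ∈ S`.  Every `k ∈ S` divides `R` (compare factorizations:
`p ^ v ∣ k ≤ X` gives `v ≤ Nat.log p X`, and `v ≤ 1` if `X < p * p`; use
`Nat.factorization_le_iff_dvd`/`Nat.Coprime` or `Nat.dvd_of_factors...`), so `S.lcm id ∣ R`
(`Finset.lcm_dvd`), `S.lcm id ≤ R`.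
`log (p ^ Nat.log p X) ≤ log X` (`Nat.pow_log_le_self`), there are at most `Nat.sqrt X` primes
`p` with `p * p ≤ X`.
-/

namespace HZ5

open Finset

theorem log_lcm_le (S : Finset ℕ) (X : ℕ) (hS : ∀ k ∈ S, 1 ≤ k ∧ k ≤ X) :
    Real.log ((S.lcm id : ℕ) : ℝ) ≤ Nat.sqrt X * Real.log X +
      ∑ p ∈ (Icc 1 X).filter (fun p => p.Prime ∧ X < p * p ∧ ∃ k ∈ S, p ∣ k), Real.log p := by
  set G := (Icc 1 (Nat.sqrt X)).filter Nat.Prime with hG
  set F := (Icc 1 X).filter (fun p => p.Prime ∧ X < p * p ∧ ∃ k ∈ S, p ∣ k) with hF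
  have hdvd : ∀ k ∈ S, k ∣ (∏ p ∈ G, p ^ Nat.log p X) * ∏ p ∈ F, p := by
    intro k hk
    obtain ⟨hk1, hkX⟩ := hS k hk
    have hk0 : k ≠ 0 := by omega
    have h1 : k = (∏ p ∈ k.primeFactors.filter (fun p => p * p ≤ X), p ^ k.factorization p) *
        ∏ p ∈ k.primeFactors.filter (fun p => ¬ p * p ≤ X), p ^ k.factorization p := by
      rw [Finset.prod_filter_mul_prod_filter_not]
      exact (Nat.prod_factorization_pow_eq_self hk0).symm
    have hv : ∀ p ∈ k.primeFactors, p ^ k.factorization p ≤ X := fun p _ =>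
      (Nat.le_of_dvd (by omega) (Nat.ordProj_dvd k p)).trans hkX
    rw [h1]
    apply mul_dvd_mul
    · refine (Finset.prod_dvd_prod_of_dvd _ (fun p => p ^ Nat.log p X) ?_).trans
        (Finset.prod_dvd_prod_of_subset _ _ _ ?_)
      · intro p hp
        rw [Finset.mem_filter] at hp
        apply pow_dvd_pow
        exact Nat.le_log_of_pow_le (Nat.prime_of_mem_primeFactors hp.1).one_lt (hv p hp.1)
      · intro p hp
        rw [Finset.mem_filter] at hp
        have hpp := Nat.prime_of_mem_primeFactors hp.1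
        rw [hG, Finset.mem_filter, Finset.mem_Icc]
        exact ⟨⟨hpp.one_lt.le, Nat.le_sqrt.2 hp.2⟩, hpp⟩
    · refine (Finset.prod_dvd_prod_of_dvd _ (fun p => p) ?_).trans
        (Finset.prod_dvd_prod_of_subset _ _ _ ?_)
      · intro p hp
        rw [Finset.mem_filter] at hp
        have hpp := Nat.prime_of_mem_primeFactors hp.1
        have h2 : k.factorization p ≤ 1 := by
          by_contra hc
          have h3 : p ^ 2 ≤ p ^ k.factorization p := Nat.pow_le_pow_right hpp.pos (by omega)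
          have h4 := hv p hp.1
          apply hp.2
          rw [← sq]
          omega
        calc p ^ k.factorization p ∣ p ^ 1 := pow_dvd_pow p h2
          _ = p := pow_one p
      · intro p hp
        rw [Finset.mem_filter] at hp
        have hpp := Nat.prime_of_mem_primeFactors hp.1
        have hpk := Nat.dvd_of_mem_primeFactors hp.1
        have h2 : p ≤ k := Nat.le_of_dvd (by omega) hpk
        rw [hF, Finset.mem_filter, Finset.mem_Icc]
        exact ⟨⟨hpp.one_lt.le, by omega⟩, hpp, by omega, k, hk, hpk⟩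
  have hL : S.lcm id ∣ (∏ p ∈ G, p ^ Nat.log p X) * ∏ p ∈ F, p := Finset.lcm_dvd hdvd
  have hG0 : ∀ p ∈ G, (p ^ Nat.log p X : ℕ) ≠ 0 := by
    intro p hp
    have := (Finset.mem_filter.1 hp).2.pos
    positivity
  have hF0 : ∀ p ∈ F, p ≠ 0 := fun p hp => (Finset.mem_filter.1 hp).2.1.ne_zero
  have hR0 : (∏ p ∈ G, p ^ Nat.log p X) * ∏ p ∈ F, p ≠ 0 :=
    mul_ne_zero (Finset.prod_ne_zero_iff.2 hG0) (Finset.prod_ne_zero_iff.2 hF0)
  have hLpos : 0 < S.lcm id := Nat.pos_of_ne_zero (fun h0 => hR0 (by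
    rw [h0] at hL
    exact Nat.eq_zero_of_zero_dvd hL))
  have hle : (S.lcm id) ≤ (∏ p ∈ G, p ^ Nat.log p X) * ∏ p ∈ F, p :=
    Nat.le_of_dvd (Nat.pos_of_ne_zero hR0) hL
  have hleR : ((S.lcm id : ℕ) : ℝ) ≤ (∏ p ∈ G, ((p ^ Nat.log p X : ℕ) : ℝ)) * ∏ p ∈ F, (p : ℝ) := by
    have h1 : ((S.lcm id : ℕ) : ℝ) ≤ (((∏ p ∈ G, p ^ Nat.log p X) * ∏ p ∈ F, p : ℕ) : ℝ) :=
      Nat.cast_le.2 hle
    rw [Nat.cast_mul, Nat.cast_prod, Nat.cast_prod] at h1
    exact h1
  have hlog := Real.log_le_log (by exact_mod_cast hLpos) hleR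
  have hG0' : ∀ p ∈ G, ((p ^ Nat.log p X : ℕ) : ℝ) ≠ 0 := fun p hp => Nat.cast_ne_zero.2 (hG0 p hp)
  have hF0' : ∀ p ∈ F, (p : ℝ) ≠ 0 := fun p hp => Nat.cast_ne_zero.2 (hF0 p hp)
  rw [Real.log_mul (Finset.prod_ne_zero_iff.2 hG0') (Finset.prod_ne_zero_iff.2 hF0'),
    Real.log_prod hG0', Real.log_prod hF0'] at hlog
  refine hlog.trans (add_le_add_left ?_ _)
  have hlX : 0 ≤ Real.log X := Real.log_natCast_nonneg X
  have h1 : ∑ p ∈ G, Real.log ((p ^ Nat.log p X : ℕ) : ℝ) ≤ ∑ p ∈ G, Real.log X := by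
    refine Finset.sum_le_sum fun p hp => ?_
    have hp2 := Finset.mem_filter.1 hp
    have h2 := Finset.mem_Icc.1 hp2.1
    have hX0 : X ≠ 0 := by
      rintro rfl
      rw [Nat.sqrt_zero] at h2
      omega
    exact Real.log_le_log (Nat.cast_pos.2 (Nat.pos_of_ne_zero (hG0 p hp)))
      (Nat.cast_le.2 (Nat.pow_log_le_self p hX0))
  refine h1.trans ?_
  rw [Finset.sum_const, nsmul_eq_mul]
  apply mul_le_mul_of_nonneg_right _ hlX
  have h3 : G.card ≤ Nat.sqrt X := (Finset.card_filter_le _ _).trans (by rw [Nat.card_Icc]; omega)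
  exact_mod_cast h3

end HZ5
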