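import Pool.Agent.LibHZ5.Core3
import Pool.Agent.LibHZ5.G
import Pool.Agent.LibHZ89.Main

/-!
# Power saving: the main theorem (assembly)
-/

namespace HZ5

open Finset HZ89

/-- the exponent grows with the dimension -/
theorem exp_mono {a ρ D D' : ℝ} (ha : 0 ≤ a) (hρ : 0 ≤ ρ) (hD : 0 < D) (hDD : D ≤ D') {q : ℝ}
    (hq : 1 ≤ q) : q ^ (1 - a * (ρ / (q * D))) ≤ q ^ (1 - a * (ρ / (q * D'))) := by
  refine Real.rpow_le_rpow_of_exponent_le hq ?_
  have hq0 : 0 < q := by linarith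
  have : ρ / (q * D') ≤ ρ / (q * D) := by gcongr
  nlinarith [mul_le_mul_of_nonneg_left this ha]

theorem main2 : ∃ C₂ : ℕ, 1 ≤ C₂ ∧ ∀ (q : ℕ), 2 ≤ q → ∀ (V : Submodule ℚ ℝ), Module.Finite ℚ V →
    ∀ (I : Finset ℕ), (∀ x ∈ I, 1 ≤ x ∧ 2 * x < q ∧ x.Coprime q ∧ hur ((x : ℝ) / q) ∈ V) →
    (I.card : ℝ) ≤ 200 * (q : ℝ) ^ (1 - 1 / (2 * C₂ : ℝ) *
      ((q.totient : ℝ) / (q * ((Module.finrank ℚ V : ℝ) + 1)))) := by
  classical
  obtain ⟨C₁, hC₁⟩ := lam_le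
  refine ⟨98 + 39 * C₁, by omega, ?_⟩
  intro q hq V hV I hI
  have hq0 : (0 : ℝ) < q := by exact_mod_cast (by omega : 0 < q)
  set V' : Submodule ℚ ℝ := V ⊔ Submodule.span ℚ {(1 : ℝ)} with hV'
  have : FiniteDimensional ℚ V := hV
  have : FiniteDimensional ℚ V' := Submodule.finiteDimensional_sup _ _
  have hfr : Module.finrank ℚ V' ≤ Module.finrank ℚ V + 1 := by
    refine (Submodule.finrank_add_le_finrank_add_finrank _ _).trans ?_
    have h := finrank_span_le_card (R := ℚ) ({(1 : ℝ)} : Set ℝ)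
    simp only [Set.toFinset_singleton, card_singleton] at h
    omega
  have h1 : (1 : ℝ) ∈ V' := Submodule.mem_sup_right (Submodule.mem_span_singleton_self _)
  have hD : 1 ≤ Module.finrank ℚ V' := by
    rw [Nat.one_le_iff_ne_zero]
    intro h0
    have h2 := Submodule.finrank_eq_zero.1 h0
    rw [h2] at h1
    exact one_ne_zero ((Submodule.mem_bot ℚ).1 h1)
  have hS : ∀ x ∈ I, S q x ∈ V' := by
    intro x hx
    obtain ⟨hx1, hx2, -, hx3⟩ := hI x hx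
    rw [S_eq hx1 hx2]
    have h3 := V.smul_mem ((1 / (q : ℚ) ^ 3)) hx3
    rw [Rat.smul_def] at h3
    push_cast at h3
    exact Submodule.mem_sup_left h3
  by_contra hcon
  rw [not_le] at hcon
  -- the number of elements
  have hM : 2 * I.card < q := by
    have hsub : I ⊆ Icc 1 ((q - 1) / 2) := by
      intro x hx
      obtain ⟨hx1, hx2, -, -⟩ := hI x hx
      exact mem_Icc.2 ⟨hx1, by omega⟩
    have := card_le_card hsub
    rw [Nat.card_Icc] at this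
    omega
  have h2 : 200 * (q : ℝ) ^ (1 - 1 / (2 * ((98 + 39 * C₁ : ℕ) : ℝ)) *
      ((q.totient : ℝ) / (q * (Module.finrank ℚ V' : ℕ)))) < I.card := by
    refine lt_of_le_of_lt ?_ hcon
    have h5 : (Module.finrank ℚ V' : ℝ) ≤ Module.finrank ℚ V + 1 := by exact_mod_cast hfr
    have h6 : (0 : ℝ) < Module.finrank ℚ V' := by exact_mod_cast hD
    exact mul_le_mul_of_nonneg_left (exp_mono (by positivity) (by positivity) h6 h5
      (by exact_mod_cast (by omega : 1 ≤ q))) (by norm_num)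
  obtain ⟨u, e, s, hu9, hu8, he1, hes, hqe, hes2, hus⟩ :=
    choose_ues (C₂ := 98 + 39 * C₁) (by omega) hq hD hM h2
  obtain ⟨J, hJ, hJc⟩ := exists_subset_card_eq hu8
  have hlam := hC₁ q u e s J hq (by omega) he1 (by omega) hqe hes2 hJc.le
    (fun x hx => ⟨(hI x (hJ hx)).1, (hI x (hJ hx)).2.1, (hI x (hJ hx)).2.2.1⟩)
  exact core3 (by omega) hu9 he1 hes hqe hus hD
    (fun x hx => ⟨(hI x (hJ hx)).1, (hI x (hJ hx)).2.1⟩) hJc hlam V' rfl h1
    (fun x hx => hS x (hJ hx))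

/-- the final form, with a real constant -/
theorem main2' : ∃ c : ℝ, 0 < c ∧ ∀ (q : ℕ), 2 ≤ q → ∀ (V : Submodule ℚ ℝ), Module.Finite ℚ V →
    ∀ (I : Finset ℕ), (∀ x ∈ I, 1 ≤ x ∧ 2 * x < q ∧ x.Coprime q ∧ hur ((x : ℝ) / q) ∈ V) →
    (I.card : ℝ) ≤ 200 * (q : ℝ) ^ (1 - c * ((q.totient : ℝ) / q) / (Module.finrank ℚ V + 1)) := by
  obtain ⟨C₂, hC₂, h⟩ := main2
  have hC : (1 : ℝ) ≤ C₂ := by exact_mod_cast hC₂
  refine ⟨1 / (2 * C₂), by positivity, fun q hq V hV I hI => ?_⟩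
  refine (h q hq V hV I hI).trans (le_of_eq ?_)
  congr 2
  rw [mul_div_assoc, div_div]

/-- the prime case: a power saving -/
theorem main_prime : ∃ c : ℝ, 0 < c ∧ ∀ (q : ℕ), q.Prime → ∀ (V : Submodule ℚ ℝ),
    Module.Finite ℚ V → ∀ (I : Finset ℕ),
    (∀ x ∈ I, 1 ≤ x ∧ 2 * x < q ∧ hur ((x : ℝ) / q) ∈ V) →
    (I.card : ℝ) ≤ 200 * (q : ℝ) ^ (1 - c / (Module.finrank ℚ V + 1)) := by
  obtain ⟨c, hc, h⟩ := main2'
  refine ⟨c / 2, by positivity, fun q hq V hV I hI => ?_⟩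
  have hI' : ∀ x ∈ I, 1 ≤ x ∧ 2 * x < q ∧ x.Coprime q ∧ hur ((x : ℝ) / q) ∈ V := by
    intro x hx
    obtain ⟨h1, h2, h3⟩ := hI x hx
    refine ⟨h1, h2, ?_, h3⟩
    exact (Nat.coprime_of_lt_prime (by omega) (by omega) hq).symm
  refine (h q hq.two_le V hV I hI').trans ?_
  have hq2 : (2 : ℝ) ≤ q := by exact_mod_cast hq.two_le
  refine mul_le_mul_of_nonneg_left (Real.rpow_le_rpow_of_exponent_le (by linarith) ?_)
    (by norm_num)
  have h1 : (1 / 2 : ℝ) ≤ (q.totient : ℝ) / q := by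
    rw [Nat.totient_prime hq, Nat.cast_sub hq.one_le, le_div_iff₀ (by linarith)]
    push_cast
    linarith
  have h2 : (0 : ℝ) < Module.finrank ℚ V + 1 := by positivity
  have h3 : c / 2 / ((Module.finrank ℚ V : ℝ) + 1) ≤
      c * ((q.totient : ℝ) / q) / (Module.finrank ℚ V + 1) := by
    gcongr
    nlinarith
  linarith

end HZ5
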