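import Pool.Agent.LibHZ89.A1
import Pool.Agent.LibHZ89.A3b
import Pool.Agent.LibHZ89.B1
import Pool.Agent.LibHZ5.BB
import Pool.Agent.LibHZ5.Defs

/-!
# Row S: the coefficients, by Siegel's lemma (STRONG, 60 min; adapt Pool/Agent/LibHZ89/A4.lean, which
proves the same statement with other numbers)

Plan: `N = 8 u n` unknowns (the subtype of `P q n I`, `card_P`), equations `Fin (6un) ⊕ (Fin (rn) × Fin 3)`:
`B_k(j)`, `k < 6 u n` (bound `2^(14 u n e)`, `BB_le'` with `N = u n`, `L = q n ≤ 2^e (u n)`), and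
`Λ^6 / ((q t + j)(q t + L - j))^i`, `t ≤ r n`, `i ≤ 3`, `Λ = lam q (q ((r+1) n)) I`: both factors are in
`KS q (q ((r+1)n)) I` (`(q t + j) % q = j % q ∈ I`; `(q t + q n - j) % q = q - j % q`, so
`q - (q t + q n - j) % q = j % q ∈ I`), hence divide `Λ` (`Finset.dvd_lcm`); bound `Λ^6`; `om_mul`.
`siegel` with `A = (16 u n)^8 * 2^((84 + 36 C₁) u s n)`: as `6un + 3rn ≤ 7un`,
`∏ ≤ (2NA)^(7un) * 2^(14une * 6un) * Λ^(18rn)`, `Λ^(18rn) ≤ 2^(C₁us(r+1)n * 18rn) ≤ 2^(36 C₁ u² s n²)`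
(`r (r+1) ≤ 2u`), `(2N)^(7un) = (16un)^(7un)`, `e ≤ s`, so
`∏ ≤ A^(7un) * (16un)^(8un) * 2^((84 + 36 C₁) s u² n²) = A^(7un) * A^(un) = A^N < (A+1)^N`.
-/

namespace HZ5

open Finset HZ89

/-- the final comparison of powers -/
private theorem s_pow {N A L Λ d e w : ℕ} (hN : 1 ≤ N) (hA : 1 ≤ A) (hΛ : 1 ≤ Λ)
    (h2 : (2 * N) ^ (d + e) * (2 ^ L) ^ d * (Λ ^ 6) ^ e ≤ A ^ w) (h3 : d + e + w ≤ N) :
    (N * A * 2 ^ L + 1) ^ d * (N * A * Λ ^ 6 + 1) ^ e < (A + 1) ^ N := by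
  have h4 : N * A * 2 ^ L + 1 ≤ 2 * N * A * 2 ^ L := by
    have : 1 ≤ N * A * 2 ^ L := Nat.one_le_iff_ne_zero.mpr (by positivity)
    calc N * A * 2 ^ L + 1 ≤ N * A * 2 ^ L + N * A * 2 ^ L := by omega
      _ = 2 * N * A * 2 ^ L := by ring
  have h5 : N * A * Λ ^ 6 + 1 ≤ 2 * N * A * Λ ^ 6 := by
    have : 1 ≤ N * A * Λ ^ 6 := Nat.one_le_iff_ne_zero.mpr (by positivity)
    calc N * A * Λ ^ 6 + 1 ≤ N * A * Λ ^ 6 + N * A * Λ ^ 6 := by omega
      _ = 2 * N * A * Λ ^ 6 := by ring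
  calc (N * A * 2 ^ L + 1) ^ d * (N * A * Λ ^ 6 + 1) ^ e
      ≤ (2 * N * A * 2 ^ L) ^ d * (2 * N * A * Λ ^ 6) ^ e :=
        Nat.mul_le_mul (Nat.pow_le_pow_left h4 d) (Nat.pow_le_pow_left h5 e)
    _ = ((2 * N) ^ (d + e) * (2 ^ L) ^ d * (Λ ^ 6) ^ e) * A ^ (d + e) := by
        rw [mul_pow, mul_pow (2 * N * A), mul_pow (2 * N) A d, mul_pow (2 * N) A e, pow_add, pow_add]
        ring
    _ ≤ A ^ w * A ^ (d + e) := Nat.mul_le_mul_right _ h2
    _ = A ^ (d + e + w) := by rw [← pow_add]; congr 1; ring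
    _ ≤ A ^ N := Nat.pow_le_pow_right hA h3
    _ < (A + 1) ^ N := Nat.pow_lt_pow_left (by omega) (by omega)

private theorem s_num {u r n s e C₁ Λ : ℕ} (hu : 1 ≤ u) (hes : e ≤ s) (hr : 3 * r ≤ u)
    (hr2 : r * (r + 1) ≤ 2 * u) (hn : 1 ≤ n) (hΛ1 : 1 ≤ Λ)
    (hΛ : Λ ≤ 2 ^ (C₁ * u * s * ((r + 1) * n))) :
    (8 * u * n * ((16 * u * n) ^ 8 * 2 ^ ((84 + 36 * C₁) * u * s * n)) * 2 ^ (14 * (u * n) * e) + 1) ^
        (6 * u * n) *
      (8 * u * n * ((16 * u * n) ^ 8 * 2 ^ ((84 + 36 * C₁) * u * s * n)) * Λ ^ 6 + 1) ^ (r * n * 3) <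
      ((16 * u * n) ^ 8 * 2 ^ ((84 + 36 * C₁) * u * s * n) + 1) ^ (8 * u * n) := by
  have hrn : r * n * 3 ≤ u * n := by
    calc r * n * 3 = 3 * r * n := by ring
      _ ≤ u * n := Nat.mul_le_mul_right _ hr
  have hun : 1 ≤ u * n := Nat.one_le_iff_ne_zero.mpr (by positivity)
  have hN : 1 ≤ 8 * u * n := Nat.one_le_iff_ne_zero.mpr (by positivity)
  have hX : 1 ≤ 16 * u * n := Nat.one_le_iff_ne_zero.mpr (by positivity)
  have hA : 1 ≤ (16 * u * n) ^ 8 * 2 ^ ((84 + 36 * C₁) * u * s * n) := by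
    have h1 : 1 ≤ (16 * u * n) ^ 8 := Nat.one_le_pow _ _ (by omega)
    have h2 : 1 ≤ 2 ^ ((84 + 36 * C₁) * u * s * n) := Nat.one_le_two_pow
    exact Nat.mul_le_mul h1 h2
  refine s_pow (w := u * n) hN hA hΛ1 ?_ ?_
  · have e1 : (2 * (8 * u * n)) ^ (6 * u * n + r * n * 3) ≤ (16 * u * n) ^ (8 * (u * n)) := by
      have : 2 * (8 * u * n) = 16 * u * n := by ring
      rw [this]
      refine Nat.pow_le_pow_right (by omega) ?_
      have : 6 * u * n = 6 * (u * n) := by ring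
      omega
    have e2 : ((2:ℕ) ^ (14 * (u * n) * e)) ^ (6 * u * n) ≤ 2 ^ (84 * (u * s * n * (u * n))) := by
      rw [← pow_mul]
      refine Nat.pow_le_pow_right (by norm_num) ?_
      calc 14 * (u * n) * e * (6 * u * n) = 84 * (u * e * n * (u * n)) := by ring
        _ ≤ 84 * (u * s * n * (u * n)) := by gcongr
    have e3 : (Λ ^ 6) ^ (r * n * 3) ≤ 2 ^ (36 * C₁ * (u * s * n * (u * n))) := by
      calc (Λ ^ 6) ^ (r * n * 3) = Λ ^ (18 * (r * n)) := by rw [← pow_mul]; congr 1; ring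
        _ ≤ (2 ^ (C₁ * u * s * ((r + 1) * n))) ^ (18 * (r * n)) := Nat.pow_le_pow_left hΛ _
        _ = 2 ^ (18 * (C₁ * u * s * (r * (r + 1)) * n ^ 2)) := by rw [← pow_mul]; congr 1; ring
        _ ≤ 2 ^ (36 * C₁ * (u * s * n * (u * n))) := by
            refine Nat.pow_le_pow_right (by norm_num) ?_
            calc 18 * (C₁ * u * s * (r * (r + 1)) * n ^ 2) ≤ 18 * (C₁ * u * s * (2 * u) * n ^ 2) := by
                  gcongr
              _ = 36 * C₁ * (u * s * n * (u * n)) := by ring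
    calc (2 * (8 * u * n)) ^ (6 * u * n + r * n * 3) * (2 ^ (14 * (u * n) * e)) ^ (6 * u * n) *
          (Λ ^ 6) ^ (r * n * 3)
        ≤ (16 * u * n) ^ (8 * (u * n)) * 2 ^ (84 * (u * s * n * (u * n))) *
          2 ^ (36 * C₁ * (u * s * n * (u * n))) :=
          Nat.mul_le_mul (Nat.mul_le_mul e1 e2) e3
      _ = ((16 * u * n) ^ 8 * 2 ^ ((84 + 36 * C₁) * u * s * n)) ^ (u * n) := by
          generalize 16 * u * n = X
          rw [mul_pow, ← pow_mul, ← pow_mul, mul_assoc, ← pow_add]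
          congr 2
          ring
  · have : 6 * u * n = 6 * (u * n) := by ring
    have h8 : 8 * u * n = 8 * (u * n) := by ring
    omega

private theorem s_KS {q r n t j : ℕ} {I : Finset ℕ} (ht : t ≤ r * n) (ht1 : 1 ≤ t) (hq : 1 ≤ q)
    (hI : ∀ x ∈ I, 1 ≤ x ∧ 2 * x < q) (hj : j < q * n) (hjI : j % q ∈ I) :
    (q * t + j) ∈ KS q (q * ((r + 1) * n)) I ∧
      (q * t + (q * n - j)) ∈ KS q (q * ((r + 1) * n)) I := by
  have hqt : q * t ≤ q * (r * n) := Nat.mul_le_mul_left _ ht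
  have hqt1 : 1 ≤ q * t := Nat.mul_le_mul hq ht1
  have hb : q * ((r + 1) * n) = q * (r * n) + q * n := by ring
  have hdm := Nat.div_add_mod j q
  have ha : j / q < n := by
    apply Nat.lt_of_mul_lt_mul_left (a := q)
    omega
  obtain ⟨m, hm⟩ : ∃ m, n = j / q + 1 + m := ⟨n - (j / q + 1), by omega⟩
  have hx := hI _ hjI
  have hqn : q * n = q * (j / q) + q + q * m := by
    conv_lhs => rw [hm]
    ring
  have h2 : q * t + (q * n - j) = q * (t + m) + (q - j % q) := by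
    have : q * (t + m) = q * t + q * m := by ring
    omega
  have h3 : (q * t + (q * n - j)) % q = q - j % q := by
    rw [h2, Nat.mul_add_mod, Nat.mod_eq_of_lt (by omega)]
  unfold KS
  rw [mem_filter, mem_filter, mem_Icc, mem_Icc]
  refine ⟨⟨⟨by omega, by omega⟩, Or.inl ?_⟩, ⟨⟨by omega, by omega⟩, Or.inr ?_⟩⟩
  · rw [Nat.mul_add_mod]
    exact hjI
  · rw [h3]
    have : q - (q - j % q) = j % q := by omega
    rw [this]
    exact hjI

private theorem s_lam_pos (q X : ℕ) (I : Finset ℕ) : 1 ≤ lam q X I := by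
  rw [Nat.one_le_iff_ne_zero]
  intro h
  unfold lam at h
  rw [Finset.lcm_eq_zero_iff] at h
  obtain ⟨k, hk, hk0⟩ := h
  have hk1 : k ∈ KS q X I := hk
  unfold KS at hk1
  rw [mem_filter, mem_Icc] at hk1
  have : k = 0 := hk0
  omega

/-- the equations at the zeros -/
private theorem s_dvd {q r n t j i : ℕ} {I : Finset ℕ} (ht : t ≤ r * n) (ht1 : 1 ≤ t) (hq : 1 ≤ q)
    (hI : ∀ x ∈ I, 1 ≤ x ∧ 2 * x < q) (hj : j < q * n) (hjI : j % q ∈ I) (hi : i ≤ 3) :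
    ((q * t + j) * (q * t + (q * n - j))) ^ i ∣ lam q (q * ((r + 1) * n)) I ^ 6 := by
  obtain ⟨m1, m2⟩ := s_KS ht ht1 hq hI hj hjI
  have h1 : (q * t + j) ∣ lam q (q * ((r + 1) * n)) I := Finset.dvd_lcm m1
  have h2 : (q * t + (q * n - j)) ∣ lam q (q * ((r + 1) * n)) I := Finset.dvd_lcm m2
  have h3 : (q * t + j) * (q * t + (q * n - j)) ∣ lam q (q * ((r + 1) * n)) I ^ 2 := by
    rw [pow_two]; exact mul_dvd_mul h1 h2
  calc ((q * t + j) * (q * t + (q * n - j))) ^ i ∣ (lam q (q * ((r + 1) * n)) I ^ 2) ^ i :=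
        pow_dvd_pow_of_dvd h3 i
    _ ∣ (lam q (q * ((r + 1) * n)) I ^ 2) ^ 3 := pow_dvd_pow _ hi
    _ = lam q (q * ((r + 1) * n)) I ^ 6 := by rw [← pow_mul]

theorem exists_c' {q u r n s e C₁ : ℕ} {I : Finset ℕ} (hq : 1 ≤ q) (hu : 1 ≤ u) (he : 1 ≤ e)
    (hes : e ≤ s) (hr : 3 * r ≤ u) (hr2 : r * (r + 1) ≤ 2 * u) (hn : 1 ≤ n)
    (hI : ∀ x ∈ I, 1 ≤ x ∧ 2 * x < q) (hcard : I.card = 8 * u) (hL : q ≤ 2 ^ e * u)
    (hlam : lam q (q * ((r + 1) * n)) I ≤ 2 ^ (C₁ * u * s * ((r + 1) * n))) :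
    ∃ c : ℕ → ℤ, (∃ j ∈ P q n I, c j ≠ 0) ∧
      (∀ j, |c j| ≤ (16 * u * n) ^ 8 * 2 ^ ((84 + 36 * C₁) * u * s * n)) ∧
      (∀ k < 6 * u * n, ∑ j ∈ P q n I, c j * (BB (q * n) k j : ℤ) = 0) ∧
      ∀ t : ℕ, 1 ≤ t → t ≤ r * n → ∀ i : ℕ, 1 ≤ i → i ≤ 3 →
        ∑ j ∈ P q n I, (c j : ℝ) / (vv n t + om q n j) ^ i = 0 := by
  classical
  have hΛ1 : 1 ≤ lam q (q * ((r + 1) * n)) I := s_lam_pos _ _ _
  obtain ⟨Λ, hΛdef⟩ : ∃ Λ, Λ = lam q (q * ((r + 1) * n)) I := ⟨_, rfl⟩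
  have hdvd : ∀ t j i : ℕ, t ≤ r * n → 1 ≤ t → j < q * n → j % q ∈ I → i ≤ 3 →
      ((q * t + j) * (q * t + (q * n - j))) ^ i ∣ Λ ^ 6 := by
    intro t j i ht ht1 hj hjI hi
    rw [hΛdef]
    exact s_dvd ht ht1 hq hI hj hjI hi
  rw [← hΛdef] at hΛ1 hlam
  have hnum := s_num hu hes hr hr2 hn hΛ1 hlam
  have hNcard : Fintype.card {j // j ∈ P q n I} = 8 * u * n := by
    rw [Fintype.card_coe, card_P hq hI, hcard]
  have hL' : q * n ≤ 2 ^ e * (u * n) := by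
    calc q * n ≤ 2 ^ e * u * n := Nat.mul_le_mul_right _ hL
      _ = 2 ^ e * (u * n) := by ring
  let M : (Fin (6 * u * n) ⊕ (Fin (r * n) × Fin 3)) → {j // j ∈ P q n I} → ℕ :=
    Sum.elim (fun k j => BB (q * n) k j)
      (fun p j => Λ ^ 6 /
        ((q * ((p.1 : ℕ) + 1) + j) * (q * ((p.1 : ℕ) + 1) + (q * n - j))) ^ ((p.2 : ℕ) + 1))
  let B : (Fin (6 * u * n) ⊕ (Fin (r * n) × Fin 3)) → ℕ :=
    Sum.elim (fun _ => 2 ^ (14 * (u * n) * e)) (fun _ => Λ ^ 6)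
  have hB : ∀ k i, M k i ≤ B k := by
    rintro (k | p) ⟨j, hj⟩
    · refine BB_le' (mem_P hI hj).2.1.le he hL' ?_
      have h1 := k.2
      have h2 : 6 * u * n = 6 * (u * n) := by ring
      omega
    · exact Nat.div_le_self _ _
  obtain ⟨c, ⟨i0, hi0⟩, hcA, hcM⟩ := siegel M B hB
    ((16 * u * n) ^ 8 * 2 ^ ((84 + 36 * C₁) * u * s * n)) (by
    rw [hNcard, Fintype.prod_sum_type]
    simp only [B, Sum.elim_inl, Sum.elim_inr, Finset.prod_const, Finset.card_univ, Fintype.card_fin,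
      Fintype.card_prod]
    exact hnum)
  have hsum : ∀ X : ℕ → ℤ, ∑ j ∈ P q n I, (if h : j ∈ P q n I then c ⟨j, h⟩ else 0) * X j =
      ∑ i : {j // j ∈ P q n I}, c i * X i := by
    intro X
    rw [← Finset.sum_coe_sort]
    refine Finset.sum_congr rfl fun i _ => ?_
    rw [dif_pos i.2]
  have hsumR : ∀ X : ℕ → ℝ, ∑ j ∈ P q n I, ((if h : j ∈ P q n I then c ⟨j, h⟩ else 0 : ℤ) : ℝ) * X j =
      ∑ i : {j // j ∈ P q n I}, (c i : ℝ) * X i := by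
    intro X
    rw [← Finset.sum_coe_sort]
    refine Finset.sum_congr rfl fun i _ => ?_
    rw [dif_pos i.2]
  refine ⟨fun j => if h : j ∈ P q n I then c ⟨j, h⟩ else 0, ?_, ?_, ?_, ?_⟩
  · refine ⟨i0, i0.2, ?_⟩
    dsimp only
    rw [dif_pos i0.2]
    exact hi0
  · intro j
    dsimp only
    split_ifs with h
    · have := hcA ⟨j, h⟩
      push_cast at this ⊢
      exact this
    · rw [abs_zero]
      positivity
  · intro k hk
    have := hcM (Sum.inl ⟨k, hk⟩)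
    rw [hsum (fun j => (BB (q * n) k j : ℤ))]
    exact this
  · intro t ht1 ht i hi1 hi
    have h0 := hcM (Sum.inr (⟨t - 1, by omega⟩, ⟨i - 1, by omega⟩))
    have hqR : (q : ℝ) ≠ 0 := by exact_mod_cast (by omega : q ≠ 0)
    have hΛR : ((Λ : ℕ) : ℝ) ≠ 0 := by exact_mod_cast (by omega)
    have h1 : ∑ j : {j // j ∈ P q n I}, (c j : ℝ) *
        (((Λ ^ 6 / ((q * t + j) * (q * t + (q * n - j))) ^ i : ℕ) : ℝ)) = 0 := by
      have h2 : ((∑ j : {j // j ∈ P q n I}, c j * ((M (Sum.inr (⟨t - 1, by omega⟩, ⟨i - 1, by omega⟩)) j : ℕ) : ℤ) : ℤ) : ℝ) = 0 := by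
        rw [h0]; simp
      rw [← h2]
      push_cast
      refine Finset.sum_congr rfl fun j _ => ?_
      simp only [M, Sum.elim_inr]
      rw [show t - 1 + 1 = t by omega, show i - 1 + 1 = i by omega]
    have h3 : ∀ j : {j // j ∈ P q n I},
        (((Λ ^ 6 / ((q * t + j) * (q * t + (q * n - j))) ^ i : ℕ) : ℝ)) =
        (((Λ : ℕ) : ℝ) ^ 6 / ((q : ℝ) ^ 2) ^ i) * (1 / (vv n t + om q n j) ^ i) := by
      intro j
      have hj := mem_P hI j.2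
      have hjle : (j : ℕ) ≤ q * n := hj.2.1.le
      have hjI : (j : ℕ) % q ∈ I := by
        have := j.2
        unfold P at this
        exact (mem_filter.1 this).2
      rw [Nat.cast_div (hdvd t j i ht ht1 hj.2.1 hjI hi)]
      · push_cast [Nat.cast_sub hjle]
        rw [om_mul hq (t : ℝ) j, mul_pow]
        rw [div_mul_div_comm, mul_one]
      · have : 1 ≤ q * t := Nat.mul_le_mul hq ht1
        have h5 : (q * t + (j:ℕ)) * (q * t + (q * n - j)) ≠ 0 := by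
          refine Nat.mul_ne_zero (by omega) (by omega)
        exact_mod_cast pow_ne_zero i h5
    have h6 : ∑ j ∈ P q n I, ((if h : j ∈ P q n I then c ⟨j, h⟩ else 0 : ℤ) : ℝ) / (vv n t + om q n j) ^ i =
        ∑ j : {j // j ∈ P q n I}, (c j : ℝ) * (1 / (vv n t + om q n j) ^ i) := by
      rw [← hsumR (fun j => 1 / (vv n t + om q n j) ^ i)]
      refine Finset.sum_congr rfl fun j _ => ?_
      rw [mul_one_div]
    rw [h6]
    have h7 : (((Λ : ℕ) : ℝ) ^ 6 / ((q : ℝ) ^ 2) ^ i) *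
        ∑ j : {j // j ∈ P q n I}, (c j : ℝ) * (1 / (vv n t + om q n j) ^ i) = 0 := by
      rw [Finset.mul_sum, ← h1]
      refine Finset.sum_congr rfl fun j _ => ?_
      rw [h3 j]
      ring
    rcases mul_eq_zero.mp h7 with h8 | h8
    · exfalso
      have : ((Λ : ℕ) : ℝ) ^ 6 / ((q : ℝ) ^ 2) ^ i ≠ 0 :=
        div_ne_zero (pow_ne_zero _ hΛR) (pow_ne_zero _ (pow_ne_zero _ hqR))
      exact this h8
    · exact h8

end HZ5
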